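import Pool.Agent.L7h80.RC.Stm

/-!
# Project RC: the commutative algebra
-/

set_option autoImplicit false

namespace Pool.Agent.L7h80.RC

open IsLocalRing

variable {R : Type} [CommRing R] [IsLocalRing R]

/-- Socle elements: if `m ^ k M ⊆ U ≠ M` there is `v ∉ U` with `m v ⊆ U`. -/
theorem exists_socle {M : Type*} [AddCommGroup M] [Module R M] (U : Submodule R M) (v₀ : M)
    (hv : v₀ ∉ U) (k : ℕ) (hk : ∀ r ∈ maximalIdeal R ^ k, r • v₀ ∈ U) :
    ∃ r : R, r • v₀ ∉ U ∧ ∀ μ ∈ maximalIdeal R, μ • (r • v₀) ∈ U := by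
  by_contra hcon
  push Not at hcon
  have key : ∀ j : ℕ, ∃ r ∈ maximalIdeal R ^ j, r • v₀ ∉ U := by
    intro j
    induction j with
    | zero => exact ⟨1, by simp, by simpa using hv⟩
    | succ j ih =>
      obtain ⟨r, hr, h⟩ := ih
      obtain ⟨μ, hμ, h'⟩ := hcon r h
      refine ⟨r * μ, ?_, ?_⟩
      · rw [pow_succ]
        exact Ideal.mul_mem_mul hr hμ
      · rw [mul_comm, mul_smul]
        exact h'
  obtain ⟨r, hr, h⟩ := key k
  exact h (hk r hr)

/-- Linear maps from the maximal ideal to `R / a` killing `a` are multiplications. -/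
theorem mult_of_lift {n : ℕ} (w : (Fin n → R) →ₗ[R] R)
    (hw : LinearMap.range w = maximalIdeal R) (a : R) (ha : a ∈ maximalIdeal R)
    (han : a ∈ nonZeroDivisors R)
    (hZ : ∀ φ : LinearMap.ker w →ₗ[R] R, ∃ Φ : (Fin n → R) →ₗ[R] R,
      ∀ z : LinearMap.ker w, Φ z = φ z)
    (g : maximalIdeal R →ₗ[R] (R ⧸ Ideal.span {a})) (hg : g ⟨a, ha⟩ = 0) :
    ∃ h : R, ∀ y : maximalIdeal R, g y = Ideal.Quotient.mk _ (h * y) := by
  classical
  have hwm : ∀ v, w v ∈ maximalIdeal R := fun v => by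
    rw [← hw]
    exact ⟨v, rfl⟩
  let w' : (Fin n → R) →ₗ[R] maximalIdeal R := w.codRestrict _ hwm
  have hw' : ∀ v, ((w' v : maximalIdeal R) : R) = w v := fun v => rfl
  -- lift
  have hsurj : Function.Surjective (Ideal.Quotient.mk (Ideal.span {a})) :=
    Ideal.Quotient.mk_surjective
  choose t ht using fun i : Fin n => hsurj (g (w' (Pi.single i 1)))
  let G : (Fin n → R) →ₗ[R] R := Fintype.linearCombination R t
  have hG : ∀ v, Ideal.Quotient.mk (Ideal.span {a}) (G v) = g (w' v) := by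
    intro v
    have h1 : v = ∑ i, v i • (Pi.single i (1 : R) : Fin n → R) := by
      funext j
      rw [Finset.sum_apply]
      simp [Pi.single_apply]
    have h2 : g (w' v) = ∑ i, v i • g (w' (Pi.single i (1 : R))) := by
      conv_lhs => rw [h1]
      rw [map_sum, map_sum]
      refine Finset.sum_congr rfl fun i _ => ?_
      rw [map_smul, map_smul]
    rw [h2, Fintype.linearCombination_apply, map_sum]
    refine Finset.sum_congr rfl fun i _ => ?_
    rw [smul_eq_mul, map_mul, ht]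
    rfl
  -- on the kernel
  have hdiv : ∀ z : LinearMap.ker w, ∃ r, G z = a * r := by
    intro z
    have h1 : w' (z : Fin n → R) = 0 := Subtype.ext (by rw [hw']; exact z.2)
    have h2 := hG z
    rw [h1, map_zero, Ideal.Quotient.eq_zero_iff_mem, Ideal.mem_span_singleton'] at h2
    obtain ⟨r, hr⟩ := h2
    exact ⟨r, by rw [← hr, mul_comm]⟩
  choose ρ hρ using hdiv
  have hcanc : ∀ x y : R, a * x = a * y → x = y := fun x y h =>
    (mul_cancel_left_mem_nonZeroDivisors han).1 h
  let φ : LinearMap.ker w →ₗ[R] R :=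
    { toFun := ρ
      map_add' := fun x y => hcanc _ _ (by
        rw [← hρ, mul_add, ← hρ, ← hρ]
        exact map_add G _ _)
      map_smul' := fun r x => hcanc _ _ (by
        rw [← hρ, RingHom.id_apply, smul_eq_mul, mul_left_comm, ← hρ]
        exact map_smul G _ _) }
  obtain ⟨Φ, hΦ⟩ := hZ φ
  have hK : ∀ z ∈ LinearMap.ker w, G z - a * Φ z = 0 := by
    intro z hz
    have h1 := hΦ ⟨z, hz⟩
    have h2 := hρ ⟨z, hz⟩
    change Φ z = ρ ⟨z, hz⟩ at h1
    change G z = a * ρ ⟨z, hz⟩ at h2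
    rw [h1, h2, sub_self]
  obtain ⟨va, hva⟩ : ∃ v, w v = a := by
    have : a ∈ LinearMap.range w := by
      rw [hw]
      exact ha
    exact this
  obtain ⟨h, hh⟩ : ∃ h, G va - a * Φ va = a * h := by
    have h1 : w' va = ⟨a, ha⟩ := Subtype.ext hva
    have h2 := hG va
    rw [h1, hg, Ideal.Quotient.eq_zero_iff_mem, Ideal.mem_span_singleton'] at h2
    obtain ⟨r, hr⟩ := h2
    exact ⟨r - Φ va, by rw [← hr]; ring⟩
  refine ⟨h, fun y => ?_⟩
  obtain ⟨v, hv⟩ : ∃ v, w v = (y : R) := by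
    have : (y : R) ∈ LinearMap.range w := by
      rw [hw]
      exact y.2
    exact this
  have h1 : w' v = y := Subtype.ext hv
  have h2 : (y : R) • va - a • v ∈ LinearMap.ker w := by
    rw [LinearMap.mem_ker, map_sub, map_smul, map_smul, hva, hv, smul_eq_mul, smul_eq_mul]
    ring
  have h3 := hK _ h2
  rw [map_sub, map_sub, map_smul, map_smul, map_smul, map_smul, smul_eq_mul, smul_eq_mul,
    smul_eq_mul, smul_eq_mul] at h3
  have h4 : a * (G v - a * Φ v) = a * (h * y) := by
    have e1 : (y : R) * (G va - a * Φ va) = a * (G v - a * Φ v) := by linear_combination h3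
    rw [← e1, hh]
    ring
  have h5 := hcanc _ _ h4
  rw [← h1, ← hG v, h1, Ideal.Quotient.mk_eq_mk_iff_sub_mem, Ideal.mem_span_singleton']
  exact ⟨Φ v, by rw [← h5]; ring⟩

/-- Extension of linear maps to `R / a` from submodules of modules killed by `a`. -/
theorem extend_of_mult [IsNoetherianRing R] (a : R) (ha : a ∈ maximalIdeal R)
    (hm : ∀ g : maximalIdeal R →ₗ[R] (R ⧸ Ideal.span {a}), g ⟨a, ha⟩ = 0 →
      ∃ h : R, ∀ y : maximalIdeal R, g y = Ideal.Quotient.mk _ (h * y))
    (k : ℕ) (hk : maximalIdeal R ^ k ≤ Ideal.span {a})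
    {M : Type} [AddCommGroup M] [Module R M] [IsNoetherian R M] (haM : ∀ v : M, a • v = 0)
    (f : M →ₗ.[R] (R ⧸ Ideal.span {a})) :
    ∃ F : M →ₗ[R] (R ⧸ Ideal.span {a}), ∀ u : f.domain, F u = f u := by
  classical
  let D : Set (Submodule R M) := {W | ∃ f' : M →ₗ.[R] (R ⧸ Ideal.span {a}), f ≤ f' ∧ f'.domain = W}
  have hDn : D.Nonempty := ⟨f.domain, f, le_rfl, rfl⟩
  obtain ⟨W, ⟨f', hff', hW⟩, hmax⟩ :=
    (wellFounded_gt : WellFounded ((· > ·) : Submodule R M → Submodule R M → Prop)).has_min D hDn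
  have htop : f'.domain = ⊤ := by
    by_contra hne
    obtain ⟨v₀, -, hv₀⟩ : ∃ v ∈ (⊤ : Submodule R M), v ∉ f'.domain := by
      by_contra hcon
      push Not at hcon
      exact hne (eq_top_iff.2 hcon)
    obtain ⟨r, hr, hμ⟩ := exists_socle f'.domain v₀ hv₀ k (fun s hs => by
      obtain ⟨s', hs'⟩ := Ideal.mem_span_singleton'.1 (hk hs)
      rw [← hs', mul_smul, haM, smul_zero]
      exact Submodule.zero_mem _)
    set v := r • v₀ with hv
    let g : maximalIdeal R →ₗ[R] (R ⧸ Ideal.span {a}) :=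
      { toFun := fun μ => f' ⟨(μ : R) • v, hμ μ μ.2⟩
        map_add' := fun x y => by
          rw [← LinearPMap.map_add]
          congr 1
          exact Subtype.ext (add_smul _ _ _)
        map_smul' := fun s x => by
          rw [RingHom.id_apply, ← LinearPMap.map_smul]
          congr 1
          exact Subtype.ext (by
            change ((s • x : maximalIdeal R) : R) • v = s • ((x : R) • v)
            rw [Submodule.coe_smul, smul_assoc]) }
    have hg0 : g ⟨a, ha⟩ = 0 := by
      change f' ⟨a • v, _⟩ = 0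
      have e : (⟨a • v, hμ a ha⟩ : f'.domain) = 0 := Subtype.ext (haM v)
      rw [e, LinearPMap.map_zero]
    obtain ⟨h, hh⟩ := hm g hg0
    have hunit : ∀ s : R, s • v ∈ f'.domain → s ∈ maximalIdeal R := by
      intro s hs
      by_contra hs'
      have hu : IsUnit s := by
        by_contra hu
        exact hs' ((mem_maximalIdeal s).2 hu)
      obtain ⟨u, rfl⟩ := hu
      apply hr
      have := f'.domain.smul_mem (↑u⁻¹ : R) hs
      rwa [smul_smul, Units.inv_mul, one_smul] at this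
    let f'' : M →ₗ.[R] (R ⧸ Ideal.span {a}) :=
      LinearPMap.mkSpanSingleton' v (Ideal.Quotient.mk (Ideal.span {a}) h) (fun s hs => by
        have h1 : s ∈ maximalIdeal R := hunit s (by rw [hs]; exact Submodule.zero_mem _)
        have h2 := hh ⟨s, h1⟩
        have h3 : g ⟨s, h1⟩ = 0 := by
          change f' ⟨s • v, _⟩ = 0
          have e : (⟨s • v, hμ s h1⟩ : f'.domain) = 0 := Subtype.ext hs
          rw [e, LinearPMap.map_zero]
        rw [h3] at h2
        change s • Ideal.Quotient.mk (Ideal.span {a}) h = 0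
        rw [Algebra.smul_def, Ideal.Quotient.algebraMap_eq, ← map_mul, mul_comm]
        exact h2.symm)
    have hcomp : ∀ (x : f'.domain) (y : f''.domain), (x : M) = y → f' x = f'' y := by
      intro x y hxy
      obtain ⟨s, hs⟩ := Submodule.mem_span_singleton.1 y.2
      have h1 : s ∈ maximalIdeal R := hunit s (by rw [hs, ← hxy]; exact x.2)
      have h2 := hh ⟨s, h1⟩
      have h3 : g ⟨s, h1⟩ = f' x := by
        change f' ⟨s • v, _⟩ = f' x
        congr 1
        exact Subtype.ext (by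
          change s • v = (x : M)
          rw [hs, hxy])
      have h4 : f'' y = s • Ideal.Quotient.mk (Ideal.span {a}) h := by
        have e : y = ⟨s • v, Submodule.mem_span_singleton.2 ⟨s, rfl⟩⟩ := Subtype.ext hs.symm
        rw [e]
        exact LinearPMap.mkSpanSingleton'_apply _ _ _ _ _
      rw [← h3, h2, h4, Algebra.smul_def, Ideal.Quotient.algebraMap_eq, ← map_mul, mul_comm]
    have hle : f' ≤ f'.sup f'' hcomp := LinearPMap.left_le_sup _ _ _
    have hin : (f'.sup f'' hcomp).domain ∈ D := ⟨_, hff'.trans hle, rfl⟩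
    apply hmax _ hin
    rw [← hW]
    refine lt_of_le_of_ne hle.1 fun he => hr ?_
    rw [he]
    exact Submodule.mem_sup_right (Submodule.mem_span_singleton_self v)
  refine ⟨f'.toFun.comp ((LinearEquiv.ofTop _ htop).symm : M →ₗ[R] f'.domain), fun u => ?_⟩
  have := hff'.2 (x := u) (y := (LinearEquiv.ofTop _ htop).symm (u : M)) rfl
  rw [this]
  rfl

theorem s_AL : S_AL := by
  intro R _ _ _ n w J a hw hJ ha han hk haZ hext
  classical
  obtain ⟨k, hk⟩ := hk
  have hcanc : ∀ x y : R, a * x = a * y → x = y := fun x y h =>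
    (mul_cancel_left_mem_nonZeroDivisors han).1 h
  -- maps that agree on J agree on ker w
  have hagree : ∀ φ ψ : LinearMap.ker w →ₗ[R] R,
      (∀ z : LinearMap.ker w, (z : Fin n → R) ∈ J → φ z = ψ z) → φ = ψ := by
    intro φ ψ h
    ext z
    have h1 := h (a • z) (haZ z z.2)
    rw [map_smul, map_smul, smul_eq_mul, smul_eq_mul] at h1
    exact hcanc _ _ h1
  have hZ : ∀ φ : LinearMap.ker w →ₗ[R] R, ∃ Φ : (Fin n → R) →ₗ[R] R,
      ∀ z : LinearMap.ker w, Φ z = φ z := by
    intro φ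
    obtain ⟨Φ, hΦ⟩ := hext (φ.comp (Submodule.inclusion hJ))
    refine ⟨Φ, fun z => ?_⟩
    have := hagree (Φ.comp (LinearMap.ker w).subtype) φ (fun z hz => by
      have := hΦ ⟨z, hz⟩
      exact this)
    exact congrArg (fun F : LinearMap.ker w →ₗ[R] R => F z) this
  have hmult := mult_of_lift w hw a ha han hZ
  refine le_antisymm hJ ?_
  by_contra hne
  obtain ⟨v₀, hv₀, hv₀J⟩ := Set.not_subset.1 hne
  obtain ⟨r, hr, hμ⟩ := exists_socle J v₀ hv₀J k (fun s hs => by
    obtain ⟨s', hs'⟩ := Ideal.mem_span_singleton'.1 (hk hs)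
    rw [← hs', mul_smul]
    exact J.smul_mem _ (haZ _ hv₀))
  set v := r • v₀ with hv
  have hvZ : v ∈ LinearMap.ker w := (LinearMap.ker w).smul_mem _ hv₀
  -- a socle element of R / a
  have h1a : (1 : R ⧸ Ideal.span {a}) ≠ 0 := by
    intro h
    have h1 : (1 : R) ∈ Ideal.span {a} := by
      rw [← Ideal.Quotient.eq_zero_iff_mem, map_one]
      exact h
    have h2 : Ideal.span {a} ≤ maximalIdeal R := by
      rw [Ideal.span_le]
      simpa using ha
    exact (Ideal.ne_top_iff_one _).1 (maximalIdeal.isMaximal R).ne_top (h2 h1)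
  obtain ⟨s, hs, hsm⟩ := exists_socle (⊥ : Submodule R (R ⧸ Ideal.span {a})) 1
    (by simpa using h1a) k (fun s hs => by
      rw [Submodule.mem_bot, Algebra.smul_def, mul_one, Ideal.Quotient.algebraMap_eq,
        Ideal.Quotient.eq_zero_iff_mem]
      exact hk hs)
  set σ := s • (1 : R ⧸ Ideal.span {a}) with hσ
  have hσ0 : σ ≠ 0 := by simpa using hs
  have hσm : ∀ μ ∈ maximalIdeal R, μ • σ = 0 := fun μ h => by simpa using hsm μ h
  -- the module R ^ n / a R ^ n
  let N : Submodule R (Fin n → R) := LinearMap.range (a • (LinearMap.id : (Fin n → R) →ₗ[R] _))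
  have hN : ∀ u : Fin n → R, a • u ∈ N := fun u => ⟨u, rfl⟩
  have hNZ : ∀ u ∈ N, u ∈ LinearMap.ker w → u ∈ J := by
    rintro _ ⟨u, rfl⟩ hu
    have h1 : w (a • u) = 0 := hu
    rw [map_smul, smul_eq_mul] at h1
    have h2 : w u = 0 := hcanc _ _ (by rw [h1, mul_zero])
    exact haZ u h2
  let M := (Fin n → R) ⧸ N
  have haM : ∀ x : M, a • x = 0 := by
    intro x
    obtain ⟨u, rfl⟩ := Submodule.mkQ_surjective N x
    rw [← map_smul, Submodule.mkQ_apply, Submodule.Quotient.mk_eq_zero]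
    exact hN u
  have hunit : ∀ s : R, s • v ∈ J → s ∈ maximalIdeal R := by
    intro s hs
    by_contra hs'
    have hu : IsUnit s := by
      by_contra hu
      exact hs' ((mem_maximalIdeal s).2 hu)
    obtain ⟨u, rfl⟩ := hu
    apply hr
    have := J.smul_mem (↑u⁻¹ : R) hs
    rwa [smul_smul, Units.inv_mul, one_smul] at this
  -- the partial map: zero on the image of J, σ at v
  let f0 : M →ₗ.[R] (R ⧸ Ideal.span {a}) := ⟨J.map N.mkQ, 0⟩
  let f1 : M →ₗ.[R] (R ⧸ Ideal.span {a}) :=
    LinearPMap.mkSpanSingleton' (N.mkQ v) σ (fun s hs => by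
      rw [← map_smul, Submodule.mkQ_apply, Submodule.Quotient.mk_eq_zero] at hs
      exact hσm s (hunit s (hNZ _ hs ((LinearMap.ker w).smul_mem _ hvZ))))
  have hcomp : ∀ (x : f0.domain) (y : f1.domain), (x : M) = y → f0 x = f1 y := by
    intro x y hxy
    obtain ⟨s, hs⟩ := Submodule.mem_span_singleton.1 y.2
    obtain ⟨j, hj, hjx⟩ := x.2
    have h1 : s • v - j ∈ N := by
      rw [← Submodule.Quotient.mk_eq_zero, ← Submodule.mkQ_apply, map_sub, map_smul, hs, hjx, hxy,
        sub_self]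
    have h2 : s • v - j ∈ J := hNZ _ h1
      ((LinearMap.ker w).sub_mem ((LinearMap.ker w).smul_mem _ hvZ) (hJ hj))
    have h3 : s • v ∈ J := by
      have := J.add_mem h2 hj
      rwa [sub_add_cancel] at this
    have h4 : f1 y = s • σ := by
      have e : y = ⟨s • N.mkQ v, Submodule.mem_span_singleton.2 ⟨s, rfl⟩⟩ := Subtype.ext hs.symm
      rw [e]
      exact LinearPMap.mkSpanSingleton'_apply _ _ _ _ _
    rw [h4, hσm s (hunit s h3)]
    rfl
  obtain ⟨F, hF⟩ := extend_of_mult a ha hmult k hk haM (f0.sup f1 hcomp)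
  have hF0 : ∀ j ∈ J, F (N.mkQ j) = 0 := by
    intro j hj
    have hd : N.mkQ j ∈ f0.domain := ⟨j, hj, rfl⟩
    have h1 := hF ⟨N.mkQ j, (LinearPMap.left_le_sup f0 f1 hcomp).1 hd⟩
    have h2 := (LinearPMap.left_le_sup f0 f1 hcomp).2 (x := ⟨N.mkQ j, hd⟩)
      (y := ⟨N.mkQ j, (LinearPMap.left_le_sup f0 f1 hcomp).1 hd⟩) rfl
    rw [← h2] at h1
    exact h1
  have hFv : F (N.mkQ v) = σ := by
    have hd : N.mkQ v ∈ f1.domain := Submodule.mem_span_singleton_self _
    have h1 := hF ⟨N.mkQ v, (LinearPMap.right_le_sup f0 f1 hcomp).1 hd⟩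
    have h2 := (LinearPMap.right_le_sup f0 f1 hcomp).2 (x := ⟨N.mkQ v, hd⟩)
      (y := ⟨N.mkQ v, (LinearPMap.right_le_sup f0 f1 hcomp).1 hd⟩) rfl
    rw [← h2] at h1
    have h3 : f1 ⟨N.mkQ v, hd⟩ = σ := LinearPMap.mkSpanSingleton'_apply_self _ _ _ _
    rw [h3] at h1
    exact h1
  -- lift to R
  choose t ht using fun i : Fin n => Ideal.Quotient.mk_surjective (I := Ideal.span {a})
    (F (N.mkQ (Pi.single i 1)))
  let G : (Fin n → R) →ₗ[R] R := Fintype.linearCombination R t
  have hG : ∀ u, Ideal.Quotient.mk (Ideal.span {a}) (G u) = F (N.mkQ u) := by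
    intro u
    have h1 : u = ∑ i, u i • (Pi.single i (1 : R) : Fin n → R) := by
      funext j
      rw [Finset.sum_apply]
      simp [Pi.single_apply]
    have h2 : F (N.mkQ u) = ∑ i, u i • F (N.mkQ (Pi.single i (1 : R))) := by
      conv_lhs => rw [h1]
      rw [map_sum, map_sum]
      refine Finset.sum_congr rfl fun i _ => ?_
      rw [map_smul, map_smul]
    rw [h2, Fintype.linearCombination_apply, map_sum]
    refine Finset.sum_congr rfl fun i _ => ?_
    rw [smul_eq_mul, map_mul, ht]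
    rfl
  have hdiv : ∀ z : J, ∃ r, G z = a * r := by
    intro z
    have h2 := hG z
    rw [hF0 z z.2, Ideal.Quotient.eq_zero_iff_mem, Ideal.mem_span_singleton'] at h2
    obtain ⟨r, hr⟩ := h2
    exact ⟨r, by rw [← hr, mul_comm]⟩
  choose ρ hρ using hdiv
  let ψ : J →ₗ[R] R :=
    { toFun := ρ
      map_add' := fun x y => hcanc _ _ (by
        rw [← hρ, mul_add, ← hρ, ← hρ]
        exact map_add G _ _)
      map_smul' := fun r x => hcanc _ _ (by
        rw [← hρ, RingHom.id_apply, smul_eq_mul, mul_left_comm, ← hρ]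
        exact map_smul G _ _) }
  obtain ⟨Φ, hΦ⟩ := hext ψ
  have hGΦ : G v = a * Φ v := by
    have := hagree (G.comp (LinearMap.ker w).subtype) ((a • Φ).comp (LinearMap.ker w).subtype)
      (fun z hz => by
        have h1 := hρ ⟨z, hz⟩
        have h2 := hΦ ⟨z, hz⟩
        change Φ z = ρ ⟨z, hz⟩ at h2
        change G z = a * Φ z
        rw [h2]
        exact h1)
    exact congrArg (fun F : LinearMap.ker w →ₗ[R] R => F ⟨v, hvZ⟩) this
  apply hσ0
  rw [← hFv, ← hG, hGΦ, Ideal.Quotient.eq_zero_iff_mem]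
  exact Ideal.mem_span_singleton'.2 ⟨Φ v, by ring⟩

end Pool.Agent.L7h80.RC
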