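import Pool.Agent.L7h80.RC.Stm

/-!
# Project RC: the local ring of a quasi-homogeneous curve singularity
-/

set_option autoImplicit false

namespace Pool.Agent.L7h80.RC

open MvPowerSeries IsLocalRing

variable {n : ℕ}

/-- The ideal of a branch. -/
noncomputable def brI (hBR : S_BR) (w : Fin n → ℕ) (hw : ∀ i, 0 < w i) (c : Fin n → ℂ) :
    Ideal (PS n) where
  carrier := {f | onBranch w c f = 0}
  add_mem' := by
    intro a b ha hb
    change onBranch w c (a + b) = 0
    rw [(hBR n w hw c).1, show onBranch w c a = 0 from ha, show onBranch w c b = 0 from hb,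
      add_zero]
  zero_mem' := by
    change onBranch w c 0 = 0
    have := (hBR n w hw c).2.2.1 0
    rwa [map_zero, map_zero] at this
  smul_mem' := by
    intro a b hb
    change onBranch w c (a * b) = 0
    rw [(hBR n w hw c).2.1, show onBranch w c b = 0 from hb, mul_zero]

theorem mem_brI (hBR : S_BR) (w : Fin n → ℕ) (hw : ∀ i, 0 < w i) (c : Fin n → ℂ) (f : PS n) :
    f ∈ brI hBR w hw c ↔ onBranch w c f = 0 := Iff.rfl

/-- The ideal of the variables. -/
noncomputable def mI (n : ℕ) : Ideal (PS n) :=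
  Ideal.span (Set.range (fun i : Fin n => (X i : PS n)))

theorem mem_mI (hSP : S_SP) (f : PS n) : f ∈ mI n ↔ constantCoeff f = 0 := by
  refine ⟨fun h => ?_, hSP n f⟩
  have : mI n ≤ RingHom.ker (constantCoeff : PS n →+* ℂ) := by
    rw [mI, Ideal.span_le]
    rintro _ ⟨i, rfl⟩
    exact constantCoeff_X i
  exact this h

theorem constantCoeff_of_mem {I : Ideal (PS n)} (hI : I ≠ ⊤) {f : PS n} (hf : f ∈ I) :
    constantCoeff f = 0 := by
  by_contra h
  apply hI
  apply Ideal.eq_top_of_isUnit_mem I hf
  rw [MvPowerSeries.isUnit_iff_constantCoeff]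
  exact isUnit_iff_ne_zero.2 h

/-- The maximal ideal of `P / I` consists of the classes of the series without constant term. -/
theorem mk_mem_max {I : Ideal (PS n)} [IsLocalRing (PS n ⧸ I)] (hI : I ≠ ⊤) (f : PS n) :
    Ideal.Quotient.mk I f ∈ maximalIdeal (PS n ⧸ I) ↔ constantCoeff f = 0 := by
  rw [mem_maximalIdeal, mem_nonunits_iff]
  constructor
  · intro h
    by_contra h'
    apply h
    apply IsUnit.map
    rw [MvPowerSeries.isUnit_iff_constantCoeff]
    exact isUnit_iff_ne_zero.2 h'
  · intro h hu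
    obtain ⟨g, hg⟩ := hu.exists_right_inv
    obtain ⟨g, rfl⟩ := Ideal.Quotient.mk_surjective g
    have h1 : f * g - 1 ∈ I := by
      rw [← Ideal.Quotient.eq_zero_iff_mem, map_sub, map_mul, hg, map_one, sub_self]
    have h2 := constantCoeff_of_mem hI h1
    rw [map_sub, map_mul, h, zero_mul, map_one] at h2
    norm_num at h2

theorem max_eq_map (hSP : S_SP) {I : Ideal (PS n)} [IsLocalRing (PS n ⧸ I)] (hI : I ≠ ⊤) :
    maximalIdeal (PS n ⧸ I) = (mI n).map (Ideal.Quotient.mk I) := by
  apply le_antisymm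
  · intro x hx
    obtain ⟨f, rfl⟩ := Ideal.Quotient.mk_surjective x
    exact Ideal.mem_map_of_mem _ ((mem_mI hSP f).2 ((mk_mem_max hI f).1 hx))
  · rw [Ideal.map_le_iff_le_comap]
    intro f hf
    exact (mk_mem_max hI f).2 ((mem_mI hSP f).1 hf)

/-- The coefficient of `x_i` is the constant coefficient of the partial derivative. -/
theorem coeff_single (f : PS n) (i : Fin n) :
    coeff (Finsupp.single i 1) f = constantCoeff (pderiv ℂ i f) := by
  rw [← coeff_zero_eq_constantCoeff_apply, MvPowerSeries.coeff_pderiv]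
  simp

theorem mem_sq (hSP : S_SP) (f : PS n) (h0 : constantCoeff f = 0)
    (h1 : ∀ i, coeff (Finsupp.single i 1) f = 0) : f ∈ mI n ^ 2 := by
  obtain ⟨g, hg⟩ := Ideal.mem_span_range_iff_exists_fun.1 (hSP n f h0)
  have h2 : ∀ j, constantCoeff (g j) = 0 := by
    intro j
    have h3 := h1 j
    rw [coeff_single, ← hg, map_sum, map_sum] at h3
    rw [Finset.sum_eq_single j] at h3
    · rw [Derivation.leibniz, smul_eq_mul, smul_eq_mul, map_add, map_mul, map_mul,
        MvPowerSeries.pderiv_X_self, constantCoeff_X, zero_mul, add_zero, map_one, mul_one] at h3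
      exact h3
    · intro i _ hij
      rw [Derivation.leibniz, smul_eq_mul, smul_eq_mul, map_add, map_mul, map_mul,
        MvPowerSeries.pderiv_X_of_ne (by exact hij), constantCoeff_X, zero_mul, add_zero,
        map_zero, mul_zero]
    · intro h
      exact absurd (Finset.mem_univ _) h
  rw [← hg, pow_two]
  refine Ideal.sum_mem _ fun i _ => Ideal.mul_mem_mul ((mem_mI hSP _).2 (h2 i)) ?_
  exact Ideal.subset_span ⟨i, rfl⟩

end Pool.Agent.L7h80.RC
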