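import Pool.Agent.L7h80.RC.MainB

/-!
# Project RD: definitions for the statement
-/

set_option autoImplicit false

namespace Pool.Agent.L7h80.RC

/-- `T¹ = 0`: every linear map `I → P / I` comes from a derivation of `P`. -/
def Rigid {n : ℕ} (I : Ideal (MvPowerSeries (Fin n) ℂ)) : Prop :=
  ∀ φ : (↥I) →ₗ[MvPowerSeries (Fin n) ℂ] (MvPowerSeries (Fin n) ℂ ⧸ I),
    ∃ D : Derivation ℂ (MvPowerSeries (Fin n) ℂ) (MvPowerSeries (Fin n) ℂ),
      ∀ f : (↥I), φ f = Ideal.Quotient.mk I (D (f : MvPowerSeries (Fin n) ℂ))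

/-- The dimension of `P / K`. -/
noncomputable def len {n : ℕ} (K : Ideal (MvPowerSeries (Fin n) ℂ)) : ℕ :=
  Module.finrank ℂ (MvPowerSeries (Fin n) ℂ ⧸ K)

/-- The set of the elements of `P / K` killed by all the variables. -/
def socleSet {n : ℕ} (K : Ideal (MvPowerSeries (Fin n) ℂ)) : Set (MvPowerSeries (Fin n) ℂ ⧸ K) :=
  {s | ∀ i, s * Ideal.Quotient.mk K (MvPowerSeries.X i) = 0}

/-- The set of the elements of `P / K` killed by all the partial derivatives of elements of `I`. -/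
def jacSet {n : ℕ} (I K : Ideal (MvPowerSeries (Fin n) ℂ)) : Set (MvPowerSeries (Fin n) ℂ ⧸ K) :=
  {s | ∀ f ∈ I, ∀ i, s * Ideal.Quotient.mk K (MvPowerSeries.pderiv ℂ i f) = 0}

/-- The dimension of the span of a set of elements of `P / K` over `ℂ`. -/
noncomputable def dimSpan {n : ℕ} (K : Ideal (MvPowerSeries (Fin n) ℂ))
    (S : Set (MvPowerSeries (Fin n) ℂ ⧸ K)) : ℕ :=
  Module.finrank ℂ (Submodule.span ℂ S)

theorem dimSpan_socle {n : ℕ} (I : Ideal (MvPowerSeries (Fin n) ℂ))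
    (x : MvPowerSeries (Fin n) ℂ) :
    dimSpan (I ⊔ Ideal.span {x}) (socleSet (I ⊔ Ideal.span {x})) =
      Module.finrank ℂ (socle I x) := by
  have h : Submodule.span ℂ (socleSet (I ⊔ Ideal.span {x})) = socle I x :=
    Submodule.span_eq (socle I x)
  rw [dimSpan, h]

theorem dimSpan_jac {n : ℕ} (I : Ideal (MvPowerSeries (Fin n) ℂ))
    (x : MvPowerSeries (Fin n) ℂ) :
    dimSpan (I ⊔ Ideal.span {x}) (jacSet I (I ⊔ Ideal.span {x})) =
      Module.finrank ℂ (annJac I x) := by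
  have h : Submodule.span ℂ (jacSet I (I ⊔ Ideal.span {x})) = annJac I x :=
    Submodule.span_eq (annJac I x)
  rw [dimSpan, h]

end Pool.Agent.L7h80.RC
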