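import Pool.Agent.L7h80.RC.StmB
import Pool.Agent.L7h45.RC.De

/-! Project RD: FIN. -/

set_option autoImplicit false

namespace Pool.Agent.L7h80.RC

open MvPowerSeries

/-- Finitely many series generate the power series ring modulo a power of the maximal ideal. -/
theorem span_pow (hSP : S_SP) (n K : ℕ) : ∃ (ι : Type) (_ : Fintype ι) (b : ι → PS n),
    ∀ f : PS n, ∃ c : ι → ℂ, f - ∑ j, C (c j) * b j ∈ mI n ^ K := by
  induction K with
  | zero =>
    refine ⟨Empty, inferInstance, fun _ => 0, fun f => ⟨fun _ => 0, ?_⟩⟩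
    rw [pow_zero, Ideal.one_eq_top]
    trivial
  | succ K ih =>
    obtain ⟨ι, hι, b, hb⟩ := ih
    refine ⟨Option (Fin n × ι), inferInstance,
      fun o => o.elim 1 (fun q => X q.1 * b q.2), fun f => ?_⟩
    have h0 : constantCoeff (f - C (constantCoeff f)) = 0 := by
      rw [map_sub, constantCoeff_C, sub_self]
    obtain ⟨g, hg⟩ := Ideal.mem_span_range_iff_exists_fun.1 (hSP n _ h0)
    choose c hc using fun i => hb (g i)
    refine ⟨fun o => o.elim (constantCoeff f) (fun q => c q.1 q.2), ?_⟩
    rw [Fintype.sum_option]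
    simp only [Option.elim]
    rw [Fintype.sum_prod_type]
    have h1 : f - (C (constantCoeff f) * 1 + ∑ i, ∑ j, C (c i j) * (X i * b j)) =
        ∑ i, X i * (g i - ∑ j, C (c i j) * b j) := by
      have h2 : ∑ i, X i * (g i - ∑ j, C (c i j) * b j) =
          ∑ i, g i * X i - ∑ i, ∑ j, C (c i j) * (X i * b j) := by
        rw [← Finset.sum_sub_distrib]
        refine Finset.sum_congr rfl fun i _ => ?_
        rw [mul_sub, Finset.mul_sum, mul_comm (X i)]
        congr 1
        refine Finset.sum_congr rfl fun j _ => ?_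
        ring
      rw [h2, hg]
      ring
    rw [h1, pow_succ']
    exact Ideal.sum_mem _ fun i _ => Ideal.mul_mem_mul (Ideal.subset_span ⟨i, rfl⟩) (hc i)

theorem s_FIN (hSP : S_SP) : S_FIN := by
  classical
  intro n p hp i0 hi0 hK
  obtain ⟨K, hK⟩ := hK
  obtain ⟨ι, hι, b, hb⟩ := span_pow hSP n K
  have hs : PowerSeries.HasSubst (X i0 : PS n) := PowerSeries.HasSubst.X i0
  have step : ∀ f : PS n, ∃ (c : ι → ℂ) (f' : PS n),
      f - ∑ j, C (c j) * b j - X i0 * f' ∈ p := by
    intro f
    obtain ⟨c, hc⟩ := hb f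
    obtain ⟨y, hy, z, hz, hyz⟩ := Submodule.mem_sup.1 (hK hc)
    obtain ⟨f', hf'⟩ := Ideal.mem_span_singleton'.1 hz
    refine ⟨c, f', ?_⟩
    rw [← hyz, ← hf']
    have : y + f' * X i0 - X i0 * f' = y := by ring
    rw [this]
    exact hy
  choose cc ff hcf using step
  have main : ∀ f : PS n, ∃ c : ι → PowerSeries ℂ,
      f - ∑ j, PowerSeries.subst (X i0 : PS n) (c j) * b j ∈ p := by
    intro f
    let F : ℕ → PS n := fun k => ff^[k] f
    have hF : ∀ k, F (k + 1) = ff (F k) := fun k => Function.iterate_succ_apply' _ _ _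
    let t : ℕ → ι → PowerSeries ℂ := fun k j => PowerSeries.mk fun i => cc (F (i + k)) j
    have ht : ∀ k j, t k j = PowerSeries.X * t (k + 1) j + PowerSeries.C (cc (F k) j) := by
      intro k j
      have h1 := PowerSeries.eq_X_mul_shift_add_const (t k j)
      have h2 : (PowerSeries.mk fun i => PowerSeries.coeff (i + 1) (t k j)) = t (k + 1) j := by
        ext i
        rw [PowerSeries.coeff_mk, PowerSeries.coeff_mk, PowerSeries.coeff_mk, add_assoc,
          add_comm 1 k]
      have h3 : PowerSeries.constantCoeff (t k j) = cc (F k) j := by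
        rw [← PowerSeries.coeff_zero_eq_constantCoeff_apply, PowerSeries.coeff_mk, zero_add]
      rw [h2, h3] at h1
      exact h1
    have hsub : ∀ k j, PowerSeries.subst (X i0 : PS n) (t k j) =
        X i0 * PowerSeries.subst (X i0 : PS n) (t (k + 1) j) + C (cc (F k) j) := by
      intro k j
      conv_lhs => rw [ht k j]
      rw [PowerSeries.subst_add hs, PowerSeries.subst_mul hs, PowerSeries.subst_X hs,
        PowerSeries.subst_C]
    let Q : ℕ → PS n := fun k => F k - ∑ j, PowerSeries.subst (X i0 : PS n) (t k j) * b j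
    have hQ : ∀ k, Q k - X i0 * Q (k + 1) ∈ p := by
      intro k
      have h1 : Q k - X i0 * Q (k + 1) = F k - ∑ j, C (cc (F k) j) * b j - X i0 * ff (F k) := by
        change F k - ∑ j, PowerSeries.subst (X i0 : PS n) (t k j) * b j -
          X i0 * (F (k + 1) - ∑ j, PowerSeries.subst (X i0 : PS n) (t (k + 1) j) * b j) = _
        have h2 : ∑ j, PowerSeries.subst (X i0 : PS n) (t k j) * b j =
            X i0 * ∑ j, PowerSeries.subst (X i0 : PS n) (t (k + 1) j) * b j +
            ∑ j, C (cc (F k) j) * b j := by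
          rw [Finset.mul_sum, ← Finset.sum_add_distrib]
          refine Finset.sum_congr rfl fun j _ => ?_
          rw [hsub k j]
          ring
        rw [h2, hF]
        ring
      rw [h1]
      exact hcf (F k)
    have hQk : ∀ k, Q 0 - X i0 ^ k * Q k ∈ p := by
      intro k
      induction k with
      | zero => simp
      | succ k ih =>
        have h1 : Q 0 - X i0 ^ (k + 1) * Q (k + 1) = (Q 0 - X i0 ^ k * Q k) +
            X i0 ^ k * (Q k - X i0 * Q (k + 1)) := by ring
        rw [h1]
        exact p.add_mem ih (Ideal.mul_mem_left _ _ (hQ k))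
    have : Nontrivial (PS n ⧸ p) := Ideal.Quotient.nontrivial_iff.2 hp.ne_top
    have : IsLocalRing (PS n ⧸ p) :=
      IsLocalRing.of_surjective' (Ideal.Quotient.mk p) Ideal.Quotient.mk_surjective
    have hne : (Ideal.span {Ideal.Quotient.mk p (X i0)} : Ideal (PS n ⧸ p)) ≠ ⊤ := by
      intro htop
      rw [Ideal.span_singleton_eq_top] at htop
      have h1 := (mk_mem_max hp.ne_top (X i0 : PS n)).2 (constantCoeff_X i0)
      exact (IsLocalRing.mem_maximalIdeal _).1 h1 htop
    have hinf := Ideal.iInf_pow_eq_bot_of_isLocalRing _ hne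
    have hz : Ideal.Quotient.mk p (Q 0) = 0 := by
      rw [← Submodule.mem_bot (R := PS n ⧸ p), ← hinf, Submodule.mem_iInf]
      intro k
      have h1 : Ideal.Quotient.mk p (Q 0) = Ideal.Quotient.mk p (X i0) ^ k *
          Ideal.Quotient.mk p (Q k) := by
        rw [← map_pow, ← map_mul, Ideal.Quotient.mk_eq_mk_iff_sub_mem]
        exact hQk k
      rw [h1]
      exact Ideal.mul_mem_right _ _ (Ideal.pow_mem_pow (Ideal.mem_span_singleton_self _) k)
    exact ⟨t 0, Ideal.Quotient.eq_zero_iff_mem.1 hz⟩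
  refine ⟨Fintype.card ι, fun j => b ((Fintype.equivFin ι).symm j), fun f => ?_⟩
  obtain ⟨c, hc⟩ := main f
  refine ⟨fun j => c ((Fintype.equivFin ι).symm j), ?_⟩
  rw [(Fintype.equivFin ι).symm.sum_comp (fun j => PowerSeries.subst (X i0 : PS n) (c j) * b j)]
  exact hc

end Pool.Agent.L7h80.RC
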