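import Pool.Agent.L7h80.RC.Base

/-!
# Project RC: tangent space of dimension at most one implies smoothness
-/

set_option autoImplicit false

namespace Pool.Agent.L7h80.RC

open MvPowerSeries IsLocalRing

variable {n : ℕ}

/-- The vector `u` is in the Zariski tangent space of `P / I`. -/
def IsTan (I : Ideal (PS n)) (u : Fin n → ℂ) : Prop :=
  ∀ g ∈ I, ∑ l, coeff (Finsupp.single l 1) g * u l = 0

/-- The linear part. -/
noncomputable def linP (n : ℕ) : PS n →ₗ[ℂ] (Fin n → ℂ) :=
  LinearMap.pi fun l => MvPowerSeries.coeff (Finsupp.single l 1)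

theorem linP_apply (f : PS n) (l : Fin n) : linP n f l = coeff (Finsupp.single l 1) f := rfl

theorem exists_lin (I : Ideal (PS n)) (ℓ : Fin n → ℂ)
    (h : ∀ u, IsTan I u → ∑ l, ℓ l * u l = 0) : ∃ g ∈ I, ∀ l, coeff (Finsupp.single l 1) g = ℓ l := by
  classical
  let L : Submodule ℂ (Fin n → ℂ) := (I.restrictScalars ℂ).map (linP n)
  by_cases hL : ℓ ∈ L
  · obtain ⟨g, hg, hgl⟩ := hL
    exact ⟨g, hg, fun l => congrFun hgl l⟩
  · exfalso
    obtain ⟨f, hf, hf'⟩ := Submodule.exists_dual_map_eq_bot_of_notMem hL inferInstance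
    have hexp : ∀ v : Fin n → ℂ, f v = ∑ l, v l * f (Pi.single l 1) := by
      intro v
      have h1 : v = ∑ l, v l • (Pi.single l (1 : ℂ) : Fin n → ℂ) := by
        funext j
        rw [Finset.sum_apply]
        simp [Pi.single_apply]
      conv_lhs => rw [h1]
      rw [map_sum]
      refine Finset.sum_congr rfl fun l _ => ?_
      rw [map_smul, smul_eq_mul]
    apply hf
    rw [hexp]
    apply h
    intro g hg
    have h2 : f (linP n g) ∈ L.map f := ⟨linP n g, ⟨g, hg, rfl⟩, rfl⟩
    rw [hf', Submodule.mem_bot, hexp] at h2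
    exact h2

theorem pir_of_tangent (hSP : S_SP) {I : Ideal (PS n)} (hI : I ≠ ⊤)
    (hT : ∀ u u' : Fin n → ℂ, IsTan I u → IsTan I u' → ∀ i j, u i * u' j = u j * u' i) :
    IsPrincipalIdealRing (PS n ⧸ I) := by
  classical
  have : Nontrivial (PS n ⧸ I) := Ideal.Quotient.nontrivial_iff.2 hI
  have : IsLocalRing (PS n ⧸ I) :=
    IsLocalRing.of_surjective' (Ideal.Quotient.mk I) Ideal.Quotient.mk_surjective
  -- the maximal ideal is generated by one element modulo its square
  have hA : ∃ y : PS n, y ∈ mI n ∧ ∀ i, (X i : PS n) ∈ Ideal.span {y} ⊔ I ⊔ mI n ^ 2 := by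
    by_cases h0 : ∀ u, IsTan I u → u = 0
    · refine ⟨0, Ideal.zero_mem _, fun i => ?_⟩
      obtain ⟨g, hg, hgl⟩ := exists_lin I (Pi.single i 1) (fun u hu => by
        rw [h0 u hu]
        simp)
      have h1 : X i - g ∈ mI n ^ 2 := by
        apply mem_sq hSP
        · rw [map_sub, constantCoeff_X, constantCoeff_of_mem hI hg, sub_zero]
        · intro l
          rw [map_sub, hgl, coeff_X, sub_eq_zero, Pi.single_apply]
          by_cases hl : l = i
          · subst hl
            simp
          · rw [if_neg, if_neg hl]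
            intro h
            exact hl ((Finsupp.single_left_inj one_ne_zero).1 h)
      have h2 : (X i : PS n) = g + (X i - g) := by ring
      rw [h2]
      exact Ideal.add_mem _ (Ideal.mem_sup_left (Ideal.mem_sup_right hg)) (Ideal.mem_sup_right h1)
    · push Not at h0
      obtain ⟨u, hu, hu0⟩ := h0
      obtain ⟨i0, hi0⟩ : ∃ i, u i ≠ 0 := by
        by_contra h
        push Not at h
        exact hu0 (funext h)
      refine ⟨X i0, Ideal.subset_span ⟨i0, rfl⟩, fun i => ?_⟩
      obtain ⟨g, hg, hgl⟩ := exists_lin I (Pi.single i (u i0) - Pi.single i0 (u i)) (fun u' hu' => by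
        have h1 := hT u u' hu hu' i0 i
        have h2 : ∀ l, (Pi.single i (u i0) - Pi.single i0 (u i) : Fin n → ℂ) l * u' l =
            (if l = i then u i0 * u' l else 0) - (if l = i0 then u i * u' l else 0) := by
          intro l
          rw [Pi.sub_apply, Pi.single_apply, Pi.single_apply, sub_mul, ite_mul, ite_mul, zero_mul]
        rw [Finset.sum_congr rfl fun l _ => h2 l, Finset.sum_sub_distrib, Finset.sum_ite_eq',
          Finset.sum_ite_eq', if_pos (Finset.mem_univ _), if_pos (Finset.mem_univ _), h1, sub_self])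
      have h1 : C (u i0) * X i - C (u i) * X i0 - g ∈ mI n ^ 2 := by
        apply mem_sq hSP
        · rw [map_sub, map_sub, map_mul, map_mul, constantCoeff_X, constantCoeff_X,
            constantCoeff_of_mem hI hg, mul_zero, mul_zero, sub_zero, sub_zero]
        · intro l
          rw [map_sub, map_sub, coeff_C_mul, coeff_C_mul, coeff_X, coeff_X, hgl, Pi.sub_apply,
            Pi.single_apply, Pi.single_apply]
          have h3 : ∀ j : Fin n, (Finsupp.single l 1 = (Finsupp.single j 1 : Fin n →₀ ℕ)) ↔ l = j :=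
            fun j => Finsupp.single_left_inj one_ne_zero
          simp only [h3]
          split_ifs <;> ring
      have h2 : (X i : PS n) = C (u i0)⁻¹ * (C (u i) * X i0 + g +
          (C (u i0) * X i - C (u i) * X i0 - g)) := by
        have h4 : (C (u i0)⁻¹ * C (u i0) : PS n) = 1 := by
          rw [← map_mul, inv_mul_cancel₀ hi0, map_one]
        linear_combination (-(X i : PS n)) * h4
      rw [h2]
      refine Ideal.mul_mem_left _ _ (Ideal.add_mem _ (Ideal.add_mem _ ?_ ?_)
        (Ideal.mem_sup_right h1))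
      · exact Ideal.mem_sup_left (Ideal.mem_sup_left (Ideal.mul_mem_left _ _
          (Ideal.mem_span_singleton_self _)))
      · exact Ideal.mem_sup_left (Ideal.mem_sup_right hg)
  obtain ⟨y, hy, hyX⟩ := hA
  have hmax := max_eq_map hSP (I := I) hI
  have hB : maximalIdeal (PS n ⧸ I) ≤ Ideal.span {Ideal.Quotient.mk I y} := by
    apply Submodule.le_of_le_smul_of_le_jacobson_bot (I := maximalIdeal (PS n ⧸ I))
    · exact IsNoetherian.noetherian _
    · exact (IsLocalRing.jacobson_eq_maximalIdeal (⊥ : Ideal (PS n ⧸ I)) bot_ne_top).ge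
    · conv_lhs => rw [hmax]
      rw [Ideal.map_le_iff_le_comap, mI, Ideal.span_le]
      rintro _ ⟨i, rfl⟩
      obtain ⟨a, ha, b, hb, hab⟩ := Submodule.mem_sup.1 (hyX i)
      obtain ⟨a1, ha1, a2, ha2, ha12⟩ := Submodule.mem_sup.1 ha
      change (X i : PS n) ∈ Ideal.comap _ _
      rw [Ideal.mem_comap]
      rw [← hab, ← ha12, map_add, map_add, Ideal.Quotient.eq_zero_iff_mem.2 ha2, add_zero]
      refine Submodule.add_mem_sup ?_ ?_
      · obtain ⟨r, hr⟩ := Ideal.mem_span_singleton'.1 ha1
        rw [← hr, map_mul]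
        exact Ideal.mul_mem_left _ _ (Ideal.mem_span_singleton_self _)
      · rw [smul_eq_mul, ← pow_two]
        have h5 : Ideal.Quotient.mk I b ∈ (mI n ^ 2).map (Ideal.Quotient.mk I) :=
          Ideal.mem_map_of_mem _ hb
        rw [Ideal.map_pow, ← hmax] at h5
        exact h5
  have hC : maximalIdeal (PS n ⧸ I) = Ideal.span {Ideal.Quotient.mk I y} := by
    refine le_antisymm hB ?_
    rw [Ideal.span_le, Set.singleton_subset_iff]
    exact (mk_mem_max hI y).2 ((mem_mI hSP y).1 hy)
  apply IsPrincipalIdealRing.of_prime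
  intro q hq
  by_cases hqm : q = maximalIdeal (PS n ⧸ I)
  · rw [hqm, hC]
    exact ⟨⟨_, rfl⟩⟩
  · have hle : q ≤ maximalIdeal (PS n ⧸ I) := le_maximalIdeal hq.ne_top
    have hyq : Ideal.Quotient.mk I y ∉ q := by
      intro h
      apply hqm
      refine le_antisymm hle ?_
      rw [hC, Ideal.span_le, Set.singleton_subset_iff]
      exact h
    have h6 : q ≤ maximalIdeal (PS n ⧸ I) • q := by
      intro x hx
      have h7 := hle hx
      rw [hC] at h7
      obtain ⟨r, hr⟩ := Ideal.mem_span_singleton'.1 h7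
      have h8 : r ∈ q := by
        rw [← hr] at hx
        exact (hq.mem_or_mem hx).resolve_right hyq
      rw [← hr, mul_comm, smul_eq_mul]
      refine Ideal.mul_mem_mul ?_ h8
      exact (mk_mem_max hI y).2 ((mem_mI hSP y).1 hy)
    have h9 : q = ⊥ := Submodule.eq_bot_of_le_smul_of_le_jacobson_bot _ _
      (IsNoetherian.noetherian _) h6
      (IsLocalRing.jacobson_eq_maximalIdeal (⊥ : Ideal (PS n ⧸ I)) bot_ne_top).ge
    rw [h9]
    infer_instance

end Pool.Agent.L7h80.RC
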