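import Pool.Agent.L7h80.RC.Al
import Pool.Agent.L7h80.RC.Pir

/-!
# Project RC: assembly
-/

set_option autoImplicit false

namespace Pool.Agent.L7h80.RC

open MvPowerSeries IsLocalRing

variable {n : ℕ}

/-- The differential of a series, with classes modulo `I` as coefficients. -/
noncomputable def dd (I : Ideal (PS n)) (f : PS n) : Fin n → PS n ⧸ I :=
  fun i => Ideal.Quotient.mk I (pderiv ℂ i f)

theorem dd_add (I : Ideal (PS n)) (f g : PS n) : dd I (f + g) = dd I f + dd I g := by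
  funext i
  rw [Pi.add_apply, dd, dd, dd, map_add, map_add]

theorem dd_mul (I : Ideal (PS n)) (g f : PS n) (hf : f ∈ I) :
    dd I (g * f) = Ideal.Quotient.mk I g • dd I f := by
  funext i
  rw [Pi.smul_apply, smul_eq_mul, dd, dd, Derivation.leibniz, smul_eq_mul, smul_eq_mul, map_add,
    map_mul, map_mul, Ideal.Quotient.eq_zero_iff_mem.2 hf, zero_mul, add_zero]

/-- The module of the differentials of the equations. -/
noncomputable def JJ (I : Ideal (PS n)) : Submodule (PS n ⧸ I) (Fin n → PS n ⧸ I) where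
  carrier := {v | ∃ f ∈ I, dd I f = v}
  add_mem' := by
    rintro _ _ ⟨f, hf, rfl⟩ ⟨g, hg, rfl⟩
    exact ⟨f + g, I.add_mem hf hg, dd_add I f g⟩
  zero_mem' := ⟨0, I.zero_mem, by
    funext i
    rw [dd, map_zero, map_zero]
    rfl⟩
  smul_mem' := by
    rintro r _ ⟨f, hf, rfl⟩
    obtain ⟨g, rfl⟩ := Ideal.Quotient.mk_surjective r
    exact ⟨g * f, I.mul_mem_left _ hf, dd_mul I g f hf⟩

/-- Contraction with the Euler field. -/
noncomputable def wR (I : Ideal (PS n)) (w : Fin n → ℕ) :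
    (Fin n → PS n ⧸ I) →ₗ[PS n ⧸ I] (PS n ⧸ I) :=
  Fintype.linearCombination (PS n ⧸ I) (fun i => Ideal.Quotient.mk I (C (w i : ℂ) * X i))

theorem wR_mk (I : Ideal (PS n)) (w : Fin n → ℕ) (z : Fin n → PS n) :
    wR I w (fun i => Ideal.Quotient.mk I (z i)) =
      Ideal.Quotient.mk I (∑ i, (C (w i : ℂ) * X i) * z i) := by
  rw [wR, Fintype.linearCombination_apply, map_sum]
  refine Finset.sum_congr rfl fun i _ => ?_
  rw [smul_eq_mul, ← map_mul, mul_comm]

theorem range_wR (hSP : S_SP) {I : Ideal (PS n)} [IsLocalRing (PS n ⧸ I)] (hI : I ≠ ⊤)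
    (w : Fin n → ℕ) (hw : ∀ i, 0 < w i) :
    LinearMap.range (wR I w) = maximalIdeal (PS n ⧸ I) := by
  apply le_antisymm
  · rintro _ ⟨v, rfl⟩
    choose z hz using fun i => Ideal.Quotient.mk_surjective (v i)
    have : v = fun i => Ideal.Quotient.mk I (z i) := funext fun i => (hz i).symm
    rw [this, wR_mk, mk_mem_max hI, map_sum]
    refine Finset.sum_eq_zero fun i _ => ?_
    rw [map_mul, map_mul, constantCoeff_X, mul_zero, zero_mul]
  · intro x hx
    obtain ⟨f, rfl⟩ := Ideal.Quotient.mk_surjective x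
    have h0 := (mk_mem_max hI f).1 hx
    obtain ⟨g, hg⟩ := Ideal.mem_span_range_iff_exists_fun.1 (hSP n f h0)
    refine ⟨fun i => Ideal.Quotient.mk I (C ((w i : ℂ)⁻¹) * g i), ?_⟩
    rw [wR_mk, ← hg]
    congr 1
    refine Finset.sum_congr rfl fun i _ => ?_
    have h1 : (C ((w i : ℂ)) * C ((w i : ℂ)⁻¹) : PS n) = 1 := by
      rw [← map_mul, mul_inv_cancel₀ (by exact_mod_cast (hw i).ne'), map_one]
    linear_combination (X i * g i) * h1

/-- The data of a quasi-homogeneous curve singularity. -/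
structure Data (n : ℕ) (w : Fin n → ℕ) (S : Finset (Fin n → ℂ)) (I : Ideal (PS n)) : Prop where
  pos : ∀ i, 0 < w i
  ne : ∀ c ∈ S, c ≠ 0
  mem : ∀ f, f ∈ I ↔ ∀ c ∈ S, onBranch w c f = 0

section

variable {w : Fin n → ℕ} {S : Finset (Fin n → ℂ)} {I : Ideal (PS n)}

theorem Data.le_br (h : Data n w S I) (hBR : S_BR) {c : Fin n → ℂ} (hc : c ∈ S) :
    I ≤ brI hBR w h.pos c := fun f hf => (h.mem f).1 hf c hc

theorem Data.mk_nzd (h : Data n w S I) (hBR : S_BR) (hPR : S_PR) (a : PS n)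
    (ha : ∀ c ∈ S, a ∉ brI hBR w h.pos c) :
    Ideal.Quotient.mk I a ∈ nonZeroDivisors (PS n ⧸ I) := by
  have key : ∀ b : PS n, a * b ∈ I → b ∈ I := by
    intro b hb
    rw [h.mem]
    intro c hc
    have h1 : a * b ∈ brI hBR w h.pos c := h.le_br hBR hc hb
    have h2 := (hPR n w h.pos c (h.ne c hc) (brI hBR w h.pos c) (fun f => Iff.rfl)).1
    exact (h2.mem_or_mem h1).resolve_left (ha c hc)
  rw [mem_nonZeroDivisors_iff_right]
  intro x hx
  obtain ⟨b, rfl⟩ := Ideal.Quotient.mk_surjective x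
  rw [← map_mul, Ideal.Quotient.eq_zero_iff_mem, mul_comm] at hx
  exact Ideal.Quotient.eq_zero_iff_mem.2 (key b hx)

theorem Data.pow_le (h : Data n w S I) (hBR : S_BR) (hSP : S_SP) (hPR : S_PR)
    [IsLocalRing (PS n ⧸ I)] (hI : I ≠ ⊤) (a : PS n)
    (ha : ∀ c ∈ S, a ∉ brI hBR w h.pos c) :
    ∃ k : ℕ, maximalIdeal (PS n ⧸ I) ^ k ≤ Ideal.span {Ideal.Quotient.mk I a} := by
  classical
  have h1 : mI n ≤ (I ⊔ Ideal.span {a}).radical := by
    rw [Ideal.radical_eq_sInf]
    refine le_sInf ?_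
    rintro q ⟨hq, hqp⟩
    have h2 : S.inf (fun c => brI hBR w h.pos c) ≤ q := by
      refine le_trans (fun f hf => ?_) (le_trans le_sup_left hq)
      rw [h.mem]
      intro c hc
      exact (Finset.inf_le hc : S.inf (fun c => brI hBR w h.pos c) ≤ _) hf
    obtain ⟨c, hc, hcq⟩ := (Ideal.IsPrime.inf_le' hqp).1 h2
    rcases (hPR n w h.pos c (h.ne c hc) (brI hBR w h.pos c) (fun f => Iff.rfl)).2 q hqp hcq
      with h3 | h3
    · exfalso
      apply ha c hc
      rw [← h3]
      exact hq (Ideal.mem_sup_right (Ideal.mem_span_singleton_self a))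
    · rw [mI, Ideal.span_le]
      rintro _ ⟨i, rfl⟩
      exact h3 i
  obtain ⟨k, hk⟩ := Ideal.exists_pow_le_of_le_radical_of_fg h1 (IsNoetherian.noetherian _)
  refine ⟨k, ?_⟩
  rw [max_eq_map hSP hI, ← Ideal.map_pow]
  refine (Ideal.map_mono hk).trans ?_
  rw [Ideal.map_sup, Ideal.map_span, Set.image_singleton, Ideal.map_quotient_self, bot_sup_eq]

theorem Data.tors (h : Data n w S I) (hBR : S_BR) (hPR : S_PR) (hTO : S_TO) :
    ∃ a : PS n, (∀ c ∈ S, a ∉ brI hBR w h.pos c) ∧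
      ∀ z ∈ LinearMap.ker (wR I w), Ideal.Quotient.mk I a • z ∈ JJ I := by
  classical
  let B : Finset (Ideal (PS n)) := S.image (fun c => brI hBR w h.pos c)
  have hB : ∀ p ∈ B, ∃ c ∈ S, brI hBR w h.pos c = p := fun p hp => by
    simpa [B] using hp
  have hBp : ∀ p ∈ B, p.IsPrime := by
    intro p hp
    obtain ⟨c, hc, rfl⟩ := hB p hp
    exact (hPR n w h.pos c (h.ne c hc) _ (fun f => Iff.rfl)).1
  have hIB : ∀ f, (∀ p ∈ B, f ∈ p) → f ∈ I := by
    intro f hf
    rw [h.mem]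
    intro c hc
    exact hf (brI hBR w h.pos c) (Finset.mem_image_of_mem _ hc)
  have hIle : ∀ p ∈ B, I ≤ p := by
    intro p hp
    obtain ⟨c, hc, rfl⟩ := hB p hp
    exact h.le_br hBR hc
  have hnX : ∀ p ∈ B, ∃ i, (X i : PS n) ∉ p := by
    intro p hp
    obtain ⟨c, hc, rfl⟩ := hB p hp
    obtain ⟨i, hi⟩ : ∃ i, c i ≠ 0 := by
      by_contra hcon
      push Not at hcon
      exact h.ne c hc (funext hcon)
    refine ⟨i, fun hX => hi ?_⟩
    have h1 : onBranch w c (X i) = 0 := hX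
    rw [(hBR n w h.pos c).2.2.2] at h1
    have h2 := congrArg (PowerSeries.coeff (w i)) h1
    rw [PowerSeries.coeff_C_mul, PowerSeries.coeff_X_pow_self, mul_one, map_zero] at h2
    exact h2
  have hinc : ∀ p ∈ B, ∀ q ∈ B, p ≤ q → q = p := by
    intro p hp q hq hpq
    obtain ⟨c, hc, hcp⟩ := hB p hp
    have h1 := (hPR n w h.pos c (h.ne c hc) p (fun f => by rw [← hcp]; exact Iff.rfl)).2 q
      (hBp q hq) hpq
    rcases h1 with h1 | h1
    · exact h1
    · obtain ⟨i, hi⟩ := hnX q hq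
      exact absurd (h1 i) hi
  have hex : ∀ p : B, ∃ (a k : PS n), a ∉ (p : Ideal (PS n)) ∧ k ∉ (p : Ideal (PS n)) ∧
      (∀ q ∈ B, q ≠ p → k ∈ q) ∧ ∀ z : Fin n → PS n,
        (∑ i, (C (w i : ℂ) * X i) * z i) ∈ (p : Ideal (PS n)) →
        ∃ (b G : Fin n → PS n), (∀ k, G k ∈ (p : Ideal (PS n))) ∧
          ∀ i, a * z i - ∑ k, b k * pderiv ℂ i (G k) ∈ (p : Ideal (PS n)) := by
    rintro ⟨p, hp⟩
    obtain ⟨c, hc, hcp⟩ := hB p hp
    obtain ⟨a, ha, haz⟩ := hTO n w h.pos c (h.ne c hc) p (fun f => by rw [← hcp]; exact Iff.rfl)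
    have hk : ∃ k, k ∈ (B.erase p).inf id ∧ k ∉ p := by
      by_contra hcon
      push Not at hcon
      obtain ⟨q, hq, hqp⟩ := (Ideal.IsPrime.inf_le' (hBp p hp)).1 hcon
      have h1 := hinc q (Finset.mem_of_mem_erase hq) p hp hqp
      exact (Finset.ne_of_mem_erase hq) h1.symm
    obtain ⟨k, hk1, hk2⟩ := hk
    refine ⟨a, k, ha, hk2, fun q hq hne => ?_, haz⟩
    exact (Finset.inf_le (Finset.mem_erase.2 ⟨hne, hq⟩) : (B.erase p).inf id ≤ id q) hk1
  choose a k ha hk hkq haz using hex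
  refine ⟨∑ p : B, k p * k p * a p, ?_, ?_⟩
  · intro c hc
    set p0 : B := ⟨brI hBR w h.pos c, Finset.mem_image_of_mem _ hc⟩ with hp0
    intro hcon
    have h1 : ∑ p : B, k p * k p * a p = k p0 * k p0 * a p0 +
        ∑ p ∈ Finset.univ.erase p0, k p * k p * a p :=
      (Finset.add_sum_erase _ _ (Finset.mem_univ p0)).symm
    have h2 : ∑ p ∈ Finset.univ.erase p0, k p * k p * a p ∈ (p0 : Ideal (PS n)) := by
      refine Ideal.sum_mem _ fun p hp => ?_
      have h3 : k p ∈ (p0 : Ideal (PS n)) := hkq p p0 p0.2 (fun he => by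
        exact (Finset.ne_of_mem_erase hp) (Subtype.ext he.symm))
      exact Ideal.mul_mem_right _ _ (Ideal.mul_mem_left _ _ h3)
    have h4 : k p0 * k p0 * a p0 ∈ (p0 : Ideal (PS n)) := by
      rw [h1] at hcon
      exact (Ideal.add_mem_iff_left _ h2).1 hcon
    have h5 := hBp p0 p0.2
    rcases h5.mem_or_mem h4 with h6 | h6
    · rcases h5.mem_or_mem h6 with h7 | h7
      · exact hk p0 h7
      · exact hk p0 h7
    · exact ha p0 h6
  · intro z hz
    choose ζ hζ using fun i => Ideal.Quotient.mk_surjective (z i)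
    have hzz : z = fun i => Ideal.Quotient.mk I (ζ i) := funext fun i => (hζ i).symm
    have h1 : ∑ i, (C (w i : ℂ) * X i) * ζ i ∈ I := by
      rw [LinearMap.mem_ker, hzz, wR_mk, Ideal.Quotient.eq_zero_iff_mem] at hz
      exact hz
    rw [map_sum, Finset.sum_smul]
    refine Submodule.sum_mem _ fun p _ => ?_
    obtain ⟨b, G, hG, hbG⟩ := haz p ζ (hIle p p.2 h1)
    have hkI : ∀ g ∈ (p : Ideal (PS n)), k p * g ∈ I := by
      intro g hg
      apply hIB
      intro q hq
      by_cases hqp : q = p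
      · rw [hqp]
        exact Ideal.mul_mem_left _ _ hg
      · exact Ideal.mul_mem_right _ _ (hkq p q hq hqp)
    have h2 : Ideal.Quotient.mk I (k p * k p * a p) • z =
        ∑ l, Ideal.Quotient.mk I (b l * k p) • dd I (k p * G l) := by
      funext i
      rw [hzz, Pi.smul_apply, smul_eq_mul, ← map_mul, Finset.sum_apply]
      have h3 : ∀ l, (Ideal.Quotient.mk I (b l * k p) • dd I (k p * G l)) i =
          Ideal.Quotient.mk I (k p * (k p * (b l * pderiv ℂ i (G l)))) := by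
        intro l
        rw [Pi.smul_apply, smul_eq_mul, dd, ← map_mul, Ideal.Quotient.mk_eq_mk_iff_sub_mem,
          Derivation.leibniz, smul_eq_mul, smul_eq_mul]
        have h4 : b l * k p * (k p * pderiv ℂ i (G l) + G l * pderiv ℂ i (k p)) -
            k p * (k p * (b l * pderiv ℂ i (G l))) = (b l * pderiv ℂ i (k p)) * (k p * G l) := by
          ring
        rw [h4]
        exact Ideal.mul_mem_left _ _ (hkI _ (hG l))
      rw [Finset.sum_congr rfl fun l _ => h3 l, ← map_sum, Ideal.Quotient.mk_eq_mk_iff_sub_mem,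
        ← Finset.mul_sum, ← Finset.mul_sum]
      have h5 : k p * k p * a p * ζ i - k p * (k p * ∑ l, b l * pderiv ℂ i (G l)) =
          k p * (k p * (a p * ζ i - ∑ l, b l * pderiv ℂ i (G l))) := by ring
      rw [h5]
      exact Ideal.mul_mem_left _ _ (hkI _ (hbG i))
    rw [h2]
    refine Submodule.sum_mem _ fun l _ => Submodule.smul_mem _ _ ⟨_, hkI _ (hG l), rfl⟩

theorem Data.J_le (h : Data n w S I) (hEU : S_EU) : JJ I ≤ LinearMap.ker (wR I w) := by
  rintro _ ⟨f, hf, rfl⟩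
  rw [LinearMap.mem_ker]
  change wR I w (fun i => Ideal.Quotient.mk I (pderiv ℂ i f)) = 0
  rw [wR_mk, Ideal.Quotient.eq_zero_iff_mem, h.mem]
  intro c hc
  exact hEU n w h.pos c f ((h.mem f).1 hf c hc)

end

theorem smul_mk_eq (I : Ideal (PS n)) (r : PS n) (y : PS n ⧸ I) :
    Ideal.Quotient.mk I r • y = r • y := by
  obtain ⟨y, rfl⟩ := Ideal.Quotient.mk_surjective y
  rfl

/-- Rigidity gives the extension property. -/
theorem ext_of_rigid (hDE : S_DE) (I : Ideal (PS n))
    (hrig : ∀ φ : I →ₗ[PS n] (PS n ⧸ I), ∃ D : Derivation ℂ (PS n) (PS n),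
      ∀ f : I, φ f = Ideal.Quotient.mk I (D (f : PS n)))
    (φ : JJ I →ₗ[PS n ⧸ I] (PS n ⧸ I)) :
    ∃ Φ : (Fin n → PS n ⧸ I) →ₗ[PS n ⧸ I] (PS n ⧸ I), ∀ z : JJ I, Φ z = φ z := by
  let ψ : I →ₗ[PS n] (PS n ⧸ I) :=
    { toFun := fun f => φ ⟨dd I f, f, f.2, rfl⟩
      map_add' := fun f g => by
        rw [← map_add]
        congr 1
        exact Subtype.ext (dd_add I f g)
      map_smul' := fun r f => by
        rw [RingHom.id_apply]
        have h1 : (⟨dd I (r • f : I), (r • f : I), (r • f : I).2, rfl⟩ : JJ I) =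
            Ideal.Quotient.mk I r • ⟨dd I f, f, f.2, rfl⟩ := Subtype.ext (dd_mul I r f f.2)
        rw [h1, map_smul]
        exact smul_mk_eq I r _ }
  obtain ⟨D, hD⟩ := hrig ψ
  refine ⟨Fintype.linearCombination (PS n ⧸ I) (fun i => Ideal.Quotient.mk I (D (X i))), ?_⟩
  rintro ⟨_, f, hf, rfl⟩
  have h1 := hD ⟨f, hf⟩
  change φ ⟨dd I f, _⟩ = _ at h1
  rw [h1, hDE n D f, map_sum, Fintype.linearCombination_apply]
  refine Finset.sum_congr rfl fun i _ => ?_
  rw [smul_eq_mul, map_mul, mul_comm]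
  rfl

/-- The Hessian argument: if all syzygies of the Euler vector are differentials of equations, the
tangent space has dimension at most one. -/
theorem tan_of_J {I : Ideal (PS n)} (w : Fin n → ℕ) (hw : ∀ i, 0 < w i)
    (hJ : LinearMap.ker (wR I w) ≤ JJ I) (u u' : Fin n → ℂ) (hu : IsTan I u) (hu' : IsTan I u')
    (i j : Fin n) : u i * u' j = u j * u' i := by
  classical
  by_cases hij : i = j
  · rw [hij]
  let V : Fin n → PS n := Pi.single i (C (w j : ℂ) * X j) - Pi.single j (C (w i : ℂ) * X i)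
  have hV : (fun l => Ideal.Quotient.mk I (V l)) ∈ LinearMap.ker (wR I w) := by
    rw [LinearMap.mem_ker, wR_mk, Ideal.Quotient.eq_zero_iff_mem]
    have h1 : ∀ l, (C (w l : ℂ) * X l) * V l =
        (if l = i then (C (w l : ℂ) * X l) * (C (w j : ℂ) * X j) else 0) -
        (if l = j then (C (w l : ℂ) * X l) * (C (w i : ℂ) * X i) else 0) := by
      intro l
      change (C (w l : ℂ) * X l) * (Pi.single (M := fun _ => PS n) i (C (w j : ℂ) * X j) l -
        Pi.single (M := fun _ => PS n) j (C (w i : ℂ) * X i) l) = _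
      rw [Pi.single_apply, Pi.single_apply, mul_sub, mul_ite, mul_ite, mul_zero]
    rw [Finset.sum_congr rfl fun l _ => h1 l, Finset.sum_sub_distrib, Finset.sum_ite_eq',
      Finset.sum_ite_eq', if_pos (Finset.mem_univ _), if_pos (Finset.mem_univ _)]
    have h2 : (C (w i : ℂ) * X i : PS n) * (C (w j : ℂ) * X j) -
        (C (w j : ℂ) * X j) * (C (w i : ℂ) * X i) = 0 := by ring
    rw [h2]
    exact I.zero_mem
  obtain ⟨f, -, hfV⟩ := hJ hV
  have hk : ∀ l, pderiv ℂ l f - V l ∈ I := by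
    intro l
    rw [← Ideal.Quotient.mk_eq_mk_iff_sub_mem]
    exact congrFun hfV l
  -- the Hessian
  let H : Fin n → Fin n → ℂ := fun k l => coeff (Finsupp.single l 1) (pderiv ℂ k f)
  have hH : ∀ k l, H k l = H l k := by
    intro k l
    change coeff (Finsupp.single l 1) (pderiv ℂ k f) = coeff (Finsupp.single k 1) (pderiv ℂ l f)
    rw [coeff_pderiv, coeff_pderiv, add_comm (Finsupp.single l 1) (Finsupp.single k 1)]
    congr 2
    rw [Finsupp.single_apply, Finsupp.single_apply]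
    by_cases hkl : k = l
    · subst hkl
      rfl
    · rw [if_neg hkl, if_neg (Ne.symm hkl)]
  have hVl : ∀ (v : Fin n → ℂ) (k : Fin n), ∑ l, coeff (Finsupp.single l 1) (V k) * v l =
      (if k = i then (w j : ℂ) * v j else 0) - (if k = j then (w i : ℂ) * v i else 0) := by
    intro v k
    have h3 : ∀ a b : Fin n, (Finsupp.single a 1 = (Finsupp.single b 1 : Fin n →₀ ℕ)) ↔ a = b :=
      fun a b => Finsupp.single_left_inj one_ne_zero
    have hc : ∀ (a : ℂ) (l b : Fin n), coeff (Finsupp.single l 1) (C a * X b : PS n) =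
        if l = b then a else 0 := by
      intro a l b
      rw [coeff_C_mul, coeff_X]
      simp only [h3]
      rw [mul_ite, mul_one, mul_zero]
    have h4 : ∀ l, coeff (Finsupp.single l 1) (V k) * v l =
        (if l = j then (if k = i then (w j : ℂ) * v l else 0) else 0) -
        (if l = i then (if k = j then (w i : ℂ) * v l else 0) else 0) := by
      intro l
      change coeff (Finsupp.single l 1) (Pi.single (M := fun _ => PS n) i (C (w j : ℂ) * X j) k -
        Pi.single (M := fun _ => PS n) j (C (w i : ℂ) * X i) k) * v l = _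
      rw [Pi.single_apply, Pi.single_apply, map_sub,
        apply_ite (coeff (Finsupp.single l 1) : PS n → ℂ),
        apply_ite (coeff (Finsupp.single l 1) : PS n → ℂ), hc, hc, map_zero]
      split_ifs <;> ring
    rw [Finset.sum_congr rfl fun l _ => h4 l, Finset.sum_sub_distrib, Finset.sum_ite_eq',
      Finset.sum_ite_eq', if_pos (Finset.mem_univ _), if_pos (Finset.mem_univ _)]
  have hHv : ∀ v : Fin n → ℂ, IsTan I v → ∀ k, ∑ l, H k l * v l =
      (if k = i then (w j : ℂ) * v j else 0) - (if k = j then (w i : ℂ) * v i else 0) := by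
    intro v hv k
    have h1 := hv _ (hk k)
    have h2 : ∀ l, coeff (Finsupp.single l 1) (pderiv ℂ k f - V k) * v l =
        H k l * v l - coeff (Finsupp.single l 1) (V k) * v l := by
      intro l
      rw [map_sub, sub_mul]
    rw [Finset.sum_congr rfl fun l _ => h2 l, Finset.sum_sub_distrib, hVl v k, sub_eq_zero] at h1
    exact h1
  have hform : ∀ v v' : Fin n → ℂ, IsTan I v → ∑ k, v' k * ∑ l, H k l * v l =
      v' i * ((w j : ℂ) * v j) - v' j * ((w i : ℂ) * v i) := by
    intro v v' hv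
    have h1 : ∀ k, v' k * ∑ l, H k l * v l =
        (if k = i then v' k * ((w j : ℂ) * v j) else 0) -
        (if k = j then v' k * ((w i : ℂ) * v i) else 0) := by
      intro k
      rw [hHv v hv k, mul_sub, mul_ite, mul_ite, mul_zero]
    rw [Finset.sum_congr rfl fun k _ => h1 k, Finset.sum_sub_distrib, Finset.sum_ite_eq',
      Finset.sum_ite_eq', if_pos (Finset.mem_univ _), if_pos (Finset.mem_univ _)]
  have hsym : ∑ k, u' k * ∑ l, H k l * u l = ∑ k, u k * ∑ l, H k l * u' l := by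
    simp only [Finset.mul_sum]
    rw [Finset.sum_comm]
    refine Finset.sum_congr rfl fun k _ => Finset.sum_congr rfl fun l _ => ?_
    rw [hH l k]
    ring
  rw [hform u u' hu, hform u' u hu'] at hsym
  have hwp : ((w i : ℂ) + (w j : ℂ)) ≠ 0 := by
    have : 0 < w i + w j := Nat.add_pos_left (hw i) _
    exact_mod_cast this.ne'
  have hfin : ((w i : ℂ) + (w j : ℂ)) * (u i * u' j - u j * u' i) = 0 := by
    linear_combination -hsym
  have := (mul_eq_zero.1 hfin).resolve_left hwp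
  exact sub_eq_zero.1 this

/-- No quasi-homogeneous reduced curve singularity is rigid. -/
theorem main (hBR : S_BR) (hEU : S_EU) (hSP : S_SP) (hDE : S_DE) (hPR : S_PR) (hTO : S_TO)
    (n : ℕ) (w : Fin n → ℕ) (hw : ∀ i, 0 < w i) (S : Finset (Fin n → ℂ)) (h0 : ∀ c ∈ S, c ≠ 0)
    (I : Ideal (PS n)) (hI : ∀ f, f ∈ I ↔ ∀ c ∈ S, onBranch w c f = 0)
    (hsing : ¬ IsPrincipalIdealRing (PS n ⧸ I)) :
    ¬ ∀ φ : I →ₗ[PS n] (PS n ⧸ I), ∃ D : Derivation ℂ (PS n) (PS n),
      ∀ f : I, φ f = Ideal.Quotient.mk I (D (f : PS n)) := by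
  classical
  intro hrig
  have h : Data n w S I := ⟨hw, h0, hI⟩
  have hItop : I ≠ ⊤ := by
    intro htop
    apply hsing
    have : Subsingleton (PS n ⧸ I) := Ideal.Quotient.subsingleton_iff.2 htop
    exact ⟨fun J => ⟨⟨0, Subsingleton.elim _ _⟩⟩⟩
  have : Nontrivial (PS n ⧸ I) := Ideal.Quotient.nontrivial_iff.2 hItop
  have : IsLocalRing (PS n ⧸ I) :=
    IsLocalRing.of_surjective' (Ideal.Quotient.mk I) Ideal.Quotient.mk_surjective
  obtain ⟨a, ha, haz⟩ := h.tors hBR hPR hTO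
  have hext := ext_of_rigid hDE I hrig
  have hJ : JJ I = LinearMap.ker (wR I w) := by
    by_cases hu : IsUnit (Ideal.Quotient.mk I a)
    · refine le_antisymm (h.J_le hEU) fun z hz => ?_
      obtain ⟨v, hv⟩ := hu
      have h1 := (JJ I).smul_mem (↑v⁻¹ : PS n ⧸ I) (haz z hz)
      rwa [← hv, smul_smul, Units.inv_mul, one_smul] at h1
    · exact s_AL (PS n ⧸ I) n (wR I w) (JJ I) (Ideal.Quotient.mk I a) (range_wR hSP hItop w hw)
        (h.J_le hEU) ((mem_maximalIdeal _).2 hu) (h.mk_nzd hBR hPR a ha)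
        (h.pow_le hBR hSP hPR hItop a ha) haz hext
  exact hsing (pir_of_tangent hSP hItop fun u u' hu hu' i j => tan_of_J w hw hJ.ge u u' hu hu' i j)

end Pool.Agent.L7h80.RC
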