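import Pool.Agent.L7h80.RC.StmB

/-!
# Project RD: assembly
-/

set_option autoImplicit false

namespace Pool.Agent.L7h80.RC

open MvPowerSeries

variable {n : ℕ}

/-- Lifting of derivations to `R / x`. -/
theorem lift_der (hDE : S_DE) (I : Ideal (PS n)) (x : PS n)
    (hx : Ideal.Quotient.mk I x ∈ nonZeroDivisors (PS n ⧸ I))
    (hrig : ∀ φ : I →ₗ[PS n] (PS n ⧸ I), ∃ D : Derivation ℂ (PS n) (PS n),
      ∀ f : I, φ f = Ideal.Quotient.mk I (D (f : PS n)))
    (b : Fin n → PS n) (hb : ∀ f ∈ I, ∑ i, b i * pderiv ℂ i f ∈ I ⊔ Ideal.span {x}) :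
    ∃ a : Fin n → PS n, (∀ f ∈ I, ∑ i, a i * pderiv ℂ i f ∈ I) ∧
      ∀ i, a i - b i ∈ I ⊔ Ideal.span {x} := by
  have hdiv : ∀ f : I, ∃ r : PS n ⧸ I,
      Ideal.Quotient.mk I (∑ i, b i * pderiv ℂ i (f : PS n)) = Ideal.Quotient.mk I x * r := by
    intro f
    obtain ⟨g, hg, y, hy, hgy⟩ := Submodule.mem_sup.1 (hb f f.2)
    obtain ⟨h, hh⟩ := Ideal.mem_span_singleton'.1 hy
    refine ⟨Ideal.Quotient.mk I h, ?_⟩
    rw [← hgy, ← hh, map_add, Ideal.Quotient.eq_zero_iff_mem.2 hg, zero_add, mul_comm, map_mul]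
  choose ρ hρ using hdiv
  have hcanc : ∀ y z : PS n ⧸ I, Ideal.Quotient.mk I x * y = Ideal.Quotient.mk I x * z → y = z :=
    fun y z h => (mul_cancel_left_mem_nonZeroDivisors hx).1 h
  let ψ : I →ₗ[PS n] (PS n ⧸ I) :=
    { toFun := ρ
      map_add' := fun f g => hcanc _ _ (by
        rw [← hρ, mul_add, ← hρ, ← hρ, ← map_add, ← Finset.sum_add_distrib]
        congr 1
        refine Finset.sum_congr rfl fun i _ => ?_
        rw [Submodule.coe_add, map_add, mul_add])
      map_smul' := fun u f => hcanc _ _ (by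
        have h0 : u • ρ f = Ideal.Quotient.mk I u * ρ f := by
          obtain ⟨y, hy⟩ := Ideal.Quotient.mk_surjective (ρ f)
          rw [← hy]
          rfl
        rw [← hρ, RingHom.id_apply, h0, mul_left_comm, ← hρ, ← map_mul,
          Ideal.Quotient.mk_eq_mk_iff_sub_mem]
        have h1 : ∑ i, b i * pderiv ℂ i ((u • f : I) : PS n) -
            u * ∑ i, b i * pderiv ℂ i (f : PS n) = (∑ i, b i * pderiv ℂ i u) * (f : PS n) := by
          rw [Finset.mul_sum, Finset.sum_mul, ← Finset.sum_sub_distrib]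
          refine Finset.sum_congr rfl fun i _ => ?_
          rw [Submodule.coe_smul, smul_eq_mul, Derivation.leibniz, smul_eq_mul, smul_eq_mul]
          ring
        rw [h1]
        exact Ideal.mul_mem_left _ _ f.2) }
  obtain ⟨D, hD⟩ := hrig ψ
  refine ⟨fun i => b i - x * D (X i), fun f hf => ?_, fun i => ?_⟩
  · rw [← Ideal.Quotient.eq_zero_iff_mem]
    have h1 : ∑ i, (b i - x * D (X i)) * pderiv ℂ i f =
        (∑ i, b i * pderiv ℂ i f) - x * D f := by
      rw [hDE n D f, Finset.mul_sum, ← Finset.sum_sub_distrib]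
      refine Finset.sum_congr rfl fun i _ => ?_
      ring
    have h2 := hρ ⟨f, hf⟩
    have h3 := hD ⟨f, hf⟩
    change ρ ⟨f, hf⟩ = _ at h3
    rw [h1, map_sub, map_mul]
    change Ideal.Quotient.mk I (∑ i, b i * pderiv ℂ i f) = _ at h2
    rw [h2, h3, sub_self]
  · have h1 : b i - x * D (X i) - b i = (-D (X i)) * x := by ring
    rw [h1]
    exact Ideal.mem_sup_right (Ideal.mul_mem_left _ _ (Ideal.mem_span_singleton_self x))

/-- The derivations of `P / I` as vectors. -/
noncomputable def Der (I : Ideal (PS n)) : Submodule (PS n ⧸ I) (Fin n → PS n ⧸ I) where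
  carrier := {a | ∀ f ∈ I, ∑ i, a i * Ideal.Quotient.mk I (pderiv ℂ i f) = 0}
  add_mem' := by
    intro a b ha hb f hf
    have : ∑ i, (a + b) i * Ideal.Quotient.mk I (pderiv ℂ i f) =
        ∑ i, a i * Ideal.Quotient.mk I (pderiv ℂ i f) +
        ∑ i, b i * Ideal.Quotient.mk I (pderiv ℂ i f) := by
      rw [← Finset.sum_add_distrib]
      exact Finset.sum_congr rfl fun i _ => add_mul _ _ _
    rw [this, ha f hf, hb f hf, add_zero]
  zero_mem' := by
    intro f hf
    exact Finset.sum_eq_zero fun i _ => zero_mul _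
  smul_mem' := by
    intro r a ha f hf
    have : ∑ i, (r • a) i * Ideal.Quotient.mk I (pderiv ℂ i f) =
        r * ∑ i, a i * Ideal.Quotient.mk I (pderiv ℂ i f) := by
      rw [Finset.mul_sum]
      exact Finset.sum_congr rfl fun i _ => mul_assoc _ _ _
    rw [this, ha f hf, mul_zero]

/-- The inequality for rigid curves. -/
theorem mainB (hDE : S_DE) (hLEN : S_LEN) (hRNK : S_RNK) (hPRI : S_PRI)
    (n : ℕ) (I : Ideal (PS n)) (hrad : I.IsRadical) (hdim : ringKrullDim (PS n ⧸ I) = 1)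
    (x : PS n) (hfin : Module.Finite ℂ (PS n ⧸ (I ⊔ Ideal.span {x}))) (r : ℕ) (s : Fin r → PS n)
    (hs : ∀ k, ∀ f ∈ I, ∀ i, s k * pderiv ℂ i f ∈ I ⊔ Ideal.span {x})
    (hli : LinearIndependent ℂ fun k => Ideal.Quotient.mk (I ⊔ Ideal.span {x}) (s k))
    (hrig : ∀ φ : I →ₗ[PS n] (PS n ⧸ I), ∃ D : Derivation ℂ (PS n) (PS n),
      ∀ f : I, φ f = Ideal.Quotient.mk I (D (f : PS n))) :
    n * r ≤ Module.finrank ℂ (PS n ⧸ (I ⊔ Ideal.span {x})) := by
  classical
  obtain ⟨B, hIB, hBp, hBinc, hB0⟩ := hPRI n I hrad hdim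
  have hIp : ∀ p ∈ B, I ≤ p := by
    intro p hp
    rw [hIB]
    exact Finset.inf_le hp
  have hmemI : ∀ f, (∀ p ∈ B, f ∈ p) → f ∈ I := by
    intro f hf
    rw [hIB, Submodule.mem_finsetInf]
    exact hf
  -- the parameter is a non-zero-divisor
  have hxp : ∀ p ∈ B, x ∉ p := by
    intro p hp hxp
    obtain ⟨i0, hi0, -⟩ := hB0 p hp
    have hle : I ⊔ Ideal.span {x} ≤ p := by
      rw [sup_le_iff, Ideal.span_le, Set.singleton_subset_iff]
      exact ⟨hIp p hp, hxp⟩
    have hprime := hBp p hp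
    have hsur : Function.Surjective (Ideal.Quotient.factorₐ ℂ hle) :=
      Ideal.Quotient.factor_surjective hle
    have hfp : Module.Finite ℂ (PS n ⧸ p) :=
      Module.Finite.of_surjective (Ideal.Quotient.factorₐ ℂ hle).toLinearMap hsur
    have hne : Ideal.Quotient.mk p (X i0) ≠ 0 := by
      rw [Ne, Ideal.Quotient.eq_zero_iff_mem]
      exact hi0
    have hu : IsUnit (Ideal.Quotient.mk p (X i0)) := FiniteDimensional.isUnit ℂ hne
    obtain ⟨g, hg⟩ := hu.exists_right_inv
    obtain ⟨g, rfl⟩ := Ideal.Quotient.mk_surjective g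
    have h1 : X i0 * g - 1 ∈ p := by
      rw [← Ideal.Quotient.eq_zero_iff_mem, map_sub, map_mul, hg, map_one, sub_self]
    have h2 := constantCoeff_of_mem hprime.ne_top h1
    rw [map_sub, map_mul, constantCoeff_X, zero_mul, map_one] at h2
    norm_num at h2
  have hxn : Ideal.Quotient.mk I x ∈ nonZeroDivisors (PS n ⧸ I) := by
    rw [mem_nonZeroDivisors_iff_right]
    intro y hy
    obtain ⟨b, rfl⟩ := Ideal.Quotient.mk_surjective y
    rw [← map_mul, Ideal.Quotient.eq_zero_iff_mem] at hy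
    rw [Ideal.Quotient.eq_zero_iff_mem]
    apply hmemI
    intro p hp
    exact ((hBp p hp).mem_or_mem (hIp p hp hy)).resolve_right (hxp p hp)
  obtain ⟨h, hh⟩ := hRNK n I B hIB hBp hBinc hB0
  -- the embedding of the derivations
  let L : Der I →ₗ[PS n ⧸ I] (PS n ⧸ I) :=
    (Fintype.linearCombination (PS n ⧸ I) (fun i => Ideal.Quotient.mk I (h i))).comp
      (Der I).subtype
  have hL : Function.Injective L := by
    rw [← LinearMap.ker_eq_bot, LinearMap.ker_eq_bot']
    rintro ⟨a, ha⟩ hLa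
    choose α hα using fun i => Ideal.Quotient.mk_surjective (a i)
    have h1 : ∀ f ∈ I, ∑ i, α i * pderiv ℂ i f ∈ I := by
      intro f hf
      rw [← Ideal.Quotient.eq_zero_iff_mem, map_sum, ← ha f hf]
      refine Finset.sum_congr rfl fun i _ => ?_
      rw [map_mul, hα]
    have h2 : ∑ i, h i * α i ∈ I := by
      change (Fintype.linearCombination (PS n ⧸ I) (fun i => Ideal.Quotient.mk I (h i))) a = 0
        at hLa
      rw [Fintype.linearCombination_apply] at hLa
      rw [← Ideal.Quotient.eq_zero_iff_mem, map_sum, ← hLa]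
      refine Finset.sum_congr rfl fun i _ => ?_
      rw [map_mul, hα, smul_eq_mul, mul_comm]
    have h3 := hh α h1 h2
    apply Subtype.ext
    funext i
    change a i = 0
    rw [← hα i, Ideal.Quotient.eq_zero_iff_mem]
    exact h3 i
  -- comparison of the quotients
  have hmap : (Ideal.span {x}).map (Ideal.Quotient.mkₐ ℂ I) =
      Ideal.span {Ideal.Quotient.mk I x} := by
    rw [Ideal.map_span, Set.image_singleton]
    rfl
  let e1 : ((PS n ⧸ I) ⧸ (Ideal.span {x}).map (Ideal.Quotient.mkₐ ℂ I)) ≃ₐ[ℂ]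
      (PS n ⧸ I ⊔ Ideal.span {x}) := DoubleQuot.quotQuotEquivQuotSupₐ ℂ I (Ideal.span {x})
  let e2 : ((PS n ⧸ I) ⧸ Ideal.span {Ideal.Quotient.mk I x}) ≃ₐ[ℂ]
      ((PS n ⧸ I) ⧸ (Ideal.span {x}).map (Ideal.Quotient.mkₐ ℂ I)) :=
    Ideal.quotientEquivAlgOfEq ℂ hmap.symm
  let e := e2.trans e1
  have hfin' : Module.Finite ℂ ((PS n ⧸ I) ⧸ Ideal.span {Ideal.Quotient.mk I x}) :=
    Module.Finite.equiv e.symm.toLinearEquiv
  rw [← e.toLinearEquiv.finrank_eq]
  -- the lifted derivations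
  have hlift : ∀ t : Fin (n * r), ∃ a : Fin n → PS n, (∀ f ∈ I, ∑ i, a i * pderiv ℂ i f ∈ I) ∧
      ∀ i, a i - (Pi.single (finProdFinEquiv.symm t).1 (s (finProdFinEquiv.symm t).2) :
        Fin n → PS n) i ∈ I ⊔ Ideal.span {x} := by
    intro t
    apply lift_der hDE I x hxn hrig
    intro f hf
    rw [Finset.sum_eq_single (finProdFinEquiv.symm t).1]
    · rw [Pi.single_eq_same]
      exact hs _ f hf _
    · intro i _ hi
      rw [Pi.single_eq_of_ne hi, zero_mul]
    · intro hi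
      exact absurd (Finset.mem_univ _) hi
  choose a ha1 ha2 using hlift
  let v : Fin (n * r) → Der I := fun t => ⟨fun i => Ideal.Quotient.mk I (a t i), by
    intro f hf
    have := ha1 t f hf
    rw [← Ideal.Quotient.eq_zero_iff_mem, map_sum] at this
    rw [← this]
    exact Finset.sum_congr rfl fun i _ => (map_mul _ _ _).symm⟩
  refine hLEN (PS n ⧸ I) (Der I) L (Ideal.Quotient.mk I x) hL hxn hfin' (n * r) v ?_
  intro c hc
  obtain ⟨m, hm⟩ := hc
  have hcomp : ∀ l : Fin n, ∑ k, c (finProdFinEquiv (l, k)) • s k ∈ I ⊔ Ideal.span {x} := by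
    intro l
    obtain ⟨μ, hμ⟩ := Ideal.Quotient.mk_surjective ((m : Fin n → PS n ⧸ I) l)
    have h1 : ∑ t, c t • Ideal.Quotient.mk I (a t l) = Ideal.Quotient.mk I x *
        Ideal.Quotient.mk I μ := by
      have h2 := congrArg (fun z : Der I => (z : Fin n → PS n ⧸ I) l) hm
      simp only [Submodule.coe_smul, Pi.smul_apply, smul_eq_mul] at h2
      rw [hμ, ← h2]
      rw [Submodule.coe_sum, Finset.sum_apply]
      rfl
    have h3 : ∑ t, c t • a t l - x * μ ∈ I := by
      rw [← Ideal.Quotient.eq_zero_iff_mem, map_sub, map_sum, map_mul, sub_eq_zero, ← h1]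
      exact Finset.sum_congr rfl fun t _ => rfl
    have h4 : ∑ t, c t • a t l ∈ I ⊔ Ideal.span {x} := by
      have h5 : ∑ t, c t • a t l = (∑ t, c t • a t l - x * μ) + μ * x := by ring
      rw [h5]
      exact Ideal.add_mem _ (Ideal.mem_sup_left h3)
        (Ideal.mem_sup_right (Ideal.mul_mem_left _ _ (Ideal.mem_span_singleton_self x)))
    have h6 : ∑ t, c t • a t l - ∑ t, c t • (Pi.single (finProdFinEquiv.symm t).1
        (s (finProdFinEquiv.symm t).2) : Fin n → PS n) l ∈ I ⊔ Ideal.span {x} := by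
      rw [← Finset.sum_sub_distrib]
      refine Ideal.sum_mem _ fun t _ => ?_
      rw [← smul_sub, MvPowerSeries.smul_eq_C_mul]
      exact Ideal.mul_mem_left _ _ (ha2 t l)
    have h7 : ∑ t, c t • (Pi.single (finProdFinEquiv.symm t).1
        (s (finProdFinEquiv.symm t).2) : Fin n → PS n) l =
        ∑ k, c (finProdFinEquiv (l, k)) • s k := by
      rw [← finProdFinEquiv.sum_comp]
      simp only [Equiv.symm_apply_apply]
      rw [Fintype.sum_prod_type, Finset.sum_eq_single l]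
      · refine Finset.sum_congr rfl fun k _ => ?_
        rw [Pi.single_eq_same]
      · intro i _ hi
        refine Finset.sum_eq_zero fun k _ => ?_
        rw [Pi.single_eq_of_ne (Ne.symm hi), smul_zero]
      · intro hi
        exact absurd (Finset.mem_univ _) hi
    rw [← h7]
    have h8 := Ideal.sub_mem _ h4 h6
    rwa [sub_sub_cancel] at h8
  funext t
  obtain ⟨⟨l, k⟩, rfl⟩ := finProdFinEquiv.surjective t
  have h1 := hcomp l
  rw [← Ideal.Quotient.eq_zero_iff_mem, map_sum] at h1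
  have h2 : ∑ k, c (finProdFinEquiv (l, k)) •
      Ideal.Quotient.mk (I ⊔ Ideal.span {x}) (s k) = 0 := by
    rw [← h1]
    exact Finset.sum_congr rfl fun k _ => rfl
  exact Fintype.linearIndependent_iff.1 hli _ h2 k

/-- The annihilator in `P / (I, x)` of all first partial derivatives of the equations. -/
noncomputable def annJac (I : Ideal (PS n)) (x : PS n) :
    Submodule ℂ (PS n ⧸ (I ⊔ Ideal.span {x})) where
  carrier := {s | ∀ f ∈ I, ∀ i, s * Ideal.Quotient.mk (I ⊔ Ideal.span {x}) (pderiv ℂ i f) = 0}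
  add_mem' := by
    intro a b ha hb f hf i
    rw [add_mul, ha f hf i, hb f hf i, add_zero]
  zero_mem' := by
    intro f _ i
    rw [zero_mul]
  smul_mem' := by
    intro c a ha f hf i
    rw [smul_mul_assoc, ha f hf i, smul_zero]

/-- The socle of `P / (I, x)`. -/
noncomputable def socle (I : Ideal (PS n)) (x : PS n) :
    Submodule ℂ (PS n ⧸ (I ⊔ Ideal.span {x})) where
  carrier := {s | ∀ i, s * Ideal.Quotient.mk (I ⊔ Ideal.span {x}) (X i) = 0}
  add_mem' := by
    intro a b ha hb i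
    rw [add_mul, ha i, hb i, add_zero]
  zero_mem' := by
    intro i
    rw [zero_mul]
  smul_mem' := by
    intro c a ha i
    rw [smul_mul_assoc, ha i, smul_zero]

theorem socle_le (hSP : S_SP) (I : Ideal (PS n)) (x : PS n)
    (hlin : ∀ f ∈ I, ∀ i, coeff (Finsupp.single i 1) f = 0) : socle I x ≤ annJac I x := by
  intro s hs f hf i
  have h1 : pderiv ℂ i f ∈ mI n := by
    rw [mem_mI hSP, ← coeff_single]
    exact hlin f hf _
  obtain ⟨g, hg⟩ := Ideal.mem_span_range_iff_exists_fun.1 h1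
  rw [← hg, map_sum, Finset.mul_sum]
  refine Finset.sum_eq_zero fun j _ => ?_
  rw [map_mul, mul_left_comm, hs j, mul_zero]

theorem mainB' (hSP : S_SP) (hDE : S_DE) (hLEN : S_LEN) (hRNK : S_RNK) (hPRI : S_PRI)
    (n : ℕ) (I : Ideal (PS n)) (hrad : I.IsRadical) (hdim : ringKrullDim (PS n ⧸ I) = 1)
    (hrig : ∀ φ : I →ₗ[PS n] (PS n ⧸ I), ∃ D : Derivation ℂ (PS n) (PS n),
      ∀ f : I, φ f = Ideal.Quotient.mk I (D (f : PS n)))
    (x : PS n) (hfin : Module.Finite ℂ (PS n ⧸ (I ⊔ Ideal.span {x}))) :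
    n * Module.finrank ℂ (annJac I x) ≤ Module.finrank ℂ (PS n ⧸ (I ⊔ Ideal.span {x})) ∧
    ((∀ f ∈ I, ∀ i, coeff (Finsupp.single i 1) f = 0) →
      n * Module.finrank ℂ (socle I x) ≤ Module.finrank ℂ (PS n ⧸ (I ⊔ Ideal.span {x}))) := by
  have h1 : n * Module.finrank ℂ (annJac I x) ≤
      Module.finrank ℂ (PS n ⧸ (I ⊔ Ideal.span {x})) := by
    let b := Module.finBasis ℂ (annJac I x)
    choose s hs using fun k => Ideal.Quotient.mk_surjective ((b k : annJac I x) :
      PS n ⧸ (I ⊔ Ideal.span {x}))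
    refine mainB hDE hLEN hRNK hPRI n I hrad hdim x hfin _ s (fun k f hf i => ?_) ?_ hrig
    · rw [← Ideal.Quotient.eq_zero_iff_mem, map_mul, hs]
      exact (b k).2 f hf i
    · have h2 : (fun k => Ideal.Quotient.mk (I ⊔ Ideal.span {x}) (s k)) =
          fun k => (annJac I x).subtype (b k) := funext hs
      rw [h2]
      exact b.linearIndependent.map' _ (Submodule.ker_subtype _)
  refine ⟨h1, fun hlin => le_trans (Nat.mul_le_mul_left n ?_) h1⟩
  exact Submodule.finrank_mono (socle_le hSP I x hlin)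

end Pool.Agent.L7h80.RC
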