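import Mathlib

/-!
# Project RC: quasi-homogeneous reduced curve singularities are not rigid (MP_90188c_ag)

Definitions and the statements of the parts.
-/

set_option autoImplicit false

namespace Pool.Agent.L7h80.RC

open MvPowerSeries

/-- The ring of formal power series in `n` variables over the complex numbers. -/
abbrev PS (n : ℕ) : Type := MvPowerSeries (Fin n) ℂ

/-- The value `f (c_1 t ^ w_1, ..., c_n t ^ w_n)`, a formal power series in `t`. -/
noncomputable def onBranch {n : ℕ} (w : Fin n → ℕ) (c : Fin n → ℂ) (f : PS n) : PowerSeries ℂ :=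
  MvPowerSeries.subst (fun i => (PowerSeries.C (c i) * PowerSeries.X ^ w i : PowerSeries ℂ)) f

/-- ring structure of `onBranch` and Euler's formula -/
def S_BR : Prop :=
  ∀ (n : ℕ) (w : Fin n → ℕ), (∀ i, 0 < w i) → ∀ c : Fin n → ℂ,
    (∀ f g : PS n, onBranch w c (f + g) = onBranch w c f + onBranch w c g) ∧
    (∀ f g : PS n, onBranch w c (f * g) = onBranch w c f * onBranch w c g) ∧
    (∀ a : ℂ, onBranch w c (C a) = PowerSeries.C a) ∧
    (∀ i, onBranch w c (X i) = PowerSeries.C (c i) * PowerSeries.X ^ w i)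

/-- Euler's formula: the Euler field preserves the ideal of the branch
(coefficient formula: the coefficient of `t ^ k` of `onBranch w c f` is the sum of
`coeff d f * ∏ c i ^ d i` over the `d` with `∑ w i * d i = k`; the coefficient of `d` in
`∑ w i X i ∂_i f` is `(∑ w i * d i) * coeff d f`). -/
def S_EU : Prop :=
  ∀ (n : ℕ) (w : Fin n → ℕ), (∀ i, 0 < w i) → ∀ c : Fin n → ℂ, ∀ f : PS n,
    onBranch w c f = 0 → onBranch w c (∑ i, (C (w i : ℂ) * X i) * pderiv ℂ i f) = 0

/-- Power series without constant term lie in the ideal of the variables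
(copy of Helper420/QI/R3 mem_span_X). -/
def S_SP : Prop :=
  ∀ (n : ℕ) (f : PS n), constantCoeff f = 0 →
    f ∈ Ideal.span (Set.range (fun i : Fin n => (X i : PS n)))

/-- Every derivation of the power series ring is `∑ D (X i) ∂_i`. (The difference `δ` kills the
`X i` and constants; `f = c + ∑ x_i g_i` gives by induction on `k` that `δ f ∈ m ^ k` for all `f`.) -/
def S_DE : Prop :=
  ∀ (n : ℕ) (D : Derivation ℂ (PS n) (PS n)) (f : PS n),
    D f = ∑ i, D (X i) * pderiv ℂ i f

/-- The ideal of a branch is prime, and the only other prime ideal above it is the maximal ideal: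
if `c i0 ≠ 0` then `x_i ^ (w i0) - (const) x_i0 ^ (w i)` is in the ideal. For a prime `q` above the
ideal with `X i0 ∉ q` ... use: `m` is minimal over `(X i0) + p`, so the height of `m / p` is at
most one by Krull's theorem. -/
def S_PR : Prop :=
  ∀ (n : ℕ) (w : Fin n → ℕ), (∀ i, 0 < w i) → ∀ c : Fin n → ℂ, c ≠ 0 →
    ∀ p : Ideal (PS n), (∀ f, f ∈ p ↔ onBranch w c f = 0) →
      p.IsPrime ∧ ∀ q : Ideal (PS n), q.IsPrime → p ≤ q → q = p ∨ ∀ i, X i ∈ q

/-- Torsion: a form `∑ z_i dx_i` whose contraction with the Euler field vanishes on the branch is,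
after multiplication with some `a ∉ p`, a combination of differentials of elements of `p`, modulo
`p`. -/
def S_TO : Prop :=
  ∀ (n : ℕ) (w : Fin n → ℕ), (∀ i, 0 < w i) → ∀ c : Fin n → ℂ, c ≠ 0 →
    ∀ p : Ideal (PS n), (∀ f, f ∈ p ↔ onBranch w c f = 0) →
      ∃ a : PS n, a ∉ p ∧ ∀ z : Fin n → PS n, (∑ i, (C (w i : ℂ) * X i) * z i) ∈ p →
        ∃ (b G : Fin n → PS n), (∀ k, G k ∈ p) ∧
          ∀ i, a * z i - ∑ k, b k * pderiv ℂ i (G k) ∈ p

/-- Commutative algebra. `w : R ^ n → R` with image the maximal ideal and kernel `Z`, `J ⊆ Z` with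
`a Z ⊆ J`, and every linear map `J → R` extends to `R ^ n`; then `J = Z`. -/
def S_AL : Prop :=
  ∀ (R : Type) [CommRing R] [IsLocalRing R] [IsNoetherianRing R] (n : ℕ)
    (w : (Fin n → R) →ₗ[R] R) (J : Submodule R (Fin n → R)) (a : R),
    LinearMap.range w = IsLocalRing.maximalIdeal R → J ≤ LinearMap.ker w →
    a ∈ IsLocalRing.maximalIdeal R → a ∈ nonZeroDivisors R →
    (∃ k : ℕ, IsLocalRing.maximalIdeal R ^ k ≤ Ideal.span {a}) →
    (∀ z ∈ LinearMap.ker w, a • z ∈ J) →
    (∀ φ : J →ₗ[R] R, ∃ Φ : (Fin n → R) →ₗ[R] R, ∀ z : J, Φ z = φ z) →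
    J = LinearMap.ker w

end Pool.Agent.L7h80.RC
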