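import Pool.Agent.L7h80.RC.Base

/-!
# Project RD: a rigid reduced curve singularity satisfies `multiplicity ≥ (embedding dimension) * type`

Paper proof. `R = P / I`, `x` a parameter, `A = R / x`. If `T¹ = 0`, every derivation `R → R / x`
lifts to a derivation of `R` (`S_LFT`). For a socle element `s` of `A`, each `s ∂_i` is such a
derivation (the equations have no linear terms). So the module `Δ` of the derivations of `R` has
`n * r` elements which are linearly independent modulo `x Δ`. But `Δ` embeds in `R` (`S_RNK`), so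
there are at most `dim R / x` of them (`S_LEN`).
-/

set_option autoImplicit false

namespace Pool.Agent.L7h80.RC

open MvPowerSeries

/-- Length inequality for a torsion-free module of rank one. Proof: `I' = L (M)` ideal of `R`;
Artin-Rees gives `c` with `x ^ k R ∩ I' ⊆ x ^ (k - c) I'` for `k ≥ c`; then the `x ^ j v_i`, `j < k - c`,
are linearly independent in `R / x ^ k`, whose dimension is `k * dim (R / x)`; so
`(k - c) * N ≤ k * dim (R / x)` for all `k`, hence `N ≤ dim (R / x)`. -/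
def S_LEN : Prop :=
  ∀ (R M : Type) [CommRing R] [Algebra ℂ R] [IsNoetherianRing R] [AddCommGroup M] [Module R M]
    [Module ℂ M] [IsScalarTower ℂ R M] (L : M →ₗ[R] R) (x : R),
    Function.Injective L → x ∈ nonZeroDivisors R → Module.Finite ℂ (R ⧸ Ideal.span {x}) →
    ∀ (N : ℕ) (v : Fin N → M),
      (∀ c : Fin N → ℂ, (∃ m : M, ∑ i, c i • v i = x • m) → c = 0) →
      N ≤ Module.finrank ℂ (R ⧸ Ideal.span {x})

/-- `P / p` is a finite module over the power series in `X i0` (successive approximation). -/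
def S_FIN : Prop :=
  ∀ (n : ℕ) (p : Ideal (PS n)), p.IsPrime → ∀ i0 : Fin n, X i0 ∉ p →
    (∃ K : ℕ, mI n ^ K ≤ p ⊔ Ideal.span {X i0}) →
    ∃ (e : ℕ) (b : Fin e → PS n), ∀ f : PS n, ∃ c : Fin e → PowerSeries ℂ,
      f - ∑ j, PowerSeries.subst (X i0 : PS n) (c j) * b j ∈ p

/-- Power series in one of the variables: `F ↦ F (X i0)` is a ring homomorphism, with derivatives
zero in the direction of the other variables, and `F (X i0) ∉ p` for `F ≠ 0` if `X i0 ∉ p`, `p`
prime, without units (`F = s ^ k * unit`). -/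
def S_SUB : Prop :=
  ∀ (n : ℕ) (i0 : Fin n),
    (∀ F G : PowerSeries ℂ, PowerSeries.subst (X i0 : PS n) (F + G) =
      PowerSeries.subst (X i0 : PS n) F + PowerSeries.subst (X i0 : PS n) G) ∧
    (∀ F G : PowerSeries ℂ, PowerSeries.subst (X i0 : PS n) (F * G) =
      PowerSeries.subst (X i0 : PS n) F * PowerSeries.subst (X i0 : PS n) G) ∧
    (∀ (F : PowerSeries ℂ) (k : Fin n), k ≠ i0 →
      pderiv ℂ k (PowerSeries.subst (X i0 : PS n) F) = 0) ∧
    (∀ (F : PowerSeries ℂ) (p : Ideal (PS n)), p.IsPrime → X i0 ∉ p → F ≠ 0 →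
      PowerSeries.subst (X i0 : PS n) F ∉ p)

/-- Separable equations: each `x_i` satisfies modulo `p` a polynomial equation over the power
series in `x_i0`; take one of minimal degree. -/
def S_WPR : Prop :=
  ∀ (n : ℕ) (p : Ideal (PS n)), p.IsPrime → ∀ i0 : Fin n, X i0 ∉ p →
    (∃ K : ℕ, mI n ^ K ≤ p ⊔ Ideal.span {X i0}) →
    ∀ i, i ≠ i0 → ∃ G ∈ p, (∀ k, k ≠ i → k ≠ i0 → pderiv ℂ k G = 0) ∧ pderiv ℂ i G ∉ p

/-- The derivations of `P / I` embed in `P / I`. Here `B` is the set of the minimal primes; choose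
`h_p ∉ p` in all the other members of `B`; the embedding is `a ↦ ∑_p h_p a_(i0 p)`; if its value is
in `I` then `a_(i0 p) ∈ p` and by `S_WPR` and `∑ a_i ∂_i G ∈ p` all `a_i ∈ p`. -/
def S_RNK : Prop :=
  ∀ (n : ℕ) (I : Ideal (PS n)) (B : Finset (Ideal (PS n))), I = B.inf id →
    (∀ p ∈ B, p.IsPrime) → (∀ p ∈ B, ∀ q ∈ B, p ≤ q → q = p) →
    (∀ p ∈ B, ∃ i0 : Fin n, X i0 ∉ p ∧ ∃ K : ℕ, mI n ^ K ≤ p ⊔ Ideal.span {X i0}) →
    ∃ h : Fin n → PS n, ∀ a : Fin n → PS n, (∀ f ∈ I, ∑ i, a i * pderiv ℂ i f ∈ I) →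
      ∑ i, h i * a i ∈ I → ∀ i, a i ∈ I

/-- The minimal primes of a reduced one-dimensional quotient. -/
def S_PRI : Prop :=
  ∀ (n : ℕ) (I : Ideal (PS n)), I.IsRadical → ringKrullDim (PS n ⧸ I) = 1 →
    ∃ B : Finset (Ideal (PS n)), I = B.inf id ∧ (∀ p ∈ B, p.IsPrime) ∧
      (∀ p ∈ B, ∀ q ∈ B, p ≤ q → q = p) ∧
      (∀ p ∈ B, ∃ i0 : Fin n, X i0 ∉ p ∧ ∃ K : ℕ, mI n ^ K ≤ p ⊔ Ideal.span {X i0})

end Pool.Agent.L7h80.RC
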