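import Pool.Agent.L7h80.RC.MainB
import Pool.Agent.L7h56.RC.Pri

/-!
# Project RW: transversal unions of curve singularities are not rigid
-/

set_option autoImplicit false

namespace Pool.Agent.L7h80.RC

open MvPowerSeries

variable {n : ℕ}

theorem pderiv_comm (k l : Fin n) (f : PS n) :
    pderiv ℂ k (pderiv ℂ l f) = pderiv ℂ l (pderiv ℂ k f) := by
  classical
  ext d
  rw [coeff_pderiv, coeff_pderiv, coeff_pderiv, coeff_pderiv, add_right_comm]
  by_cases h : k = l
  · subst h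
    rfl
  · simp only [Finsupp.add_apply, Finsupp.single_apply, if_neg h, if_neg (Ne.symm h), add_zero]
    ring

/-- The derivation with the given values on the variables. -/
noncomputable def vf (a : Fin n → PS n) (f : PS n) : PS n := ∑ i, a i * pderiv ℂ i f

theorem vf_add (a : Fin n → PS n) (f g : PS n) : vf a (f + g) = vf a f + vf a g := by
  rw [vf, vf, vf, ← Finset.sum_add_distrib]
  refine Finset.sum_congr rfl fun i _ => ?_
  rw [map_add, mul_add]

theorem vf_mul (a : Fin n → PS n) (f g : PS n) : vf a (f * g) = f * vf a g + g * vf a f := by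
  rw [vf, vf, vf, Finset.mul_sum, Finset.mul_sum, ← Finset.sum_add_distrib]
  refine Finset.sum_congr rfl fun i _ => ?_
  rw [Derivation.leibniz, smul_eq_mul, smul_eq_mul]
  ring

theorem vf_X (a : Fin n → PS n) (k : Fin n) : vf a (X k) = a k := by
  rw [vf, Finset.sum_eq_single k]
  · rw [pderiv_X_self, mul_one]
  · intro i _ hi
    rw [pderiv_X_of_ne (Ne.symm hi), mul_zero]
  · intro h
    exact absurd (Finset.mem_univ _) h

theorem vf_pderiv (a : Fin n → PS n) (k : Fin n) (f : PS n) :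
    vf a (pderiv ℂ k f) = pderiv ℂ k (vf a f) - ∑ l, pderiv ℂ k (a l) * pderiv ℂ l f := by
  rw [vf, vf, map_sum, ← Finset.sum_sub_distrib]
  refine Finset.sum_congr rfl fun l _ => ?_
  rw [Derivation.leibniz, smul_eq_mul, smul_eq_mul, pderiv_comm l k]
  ring

theorem vf_pow (a : Fin n → PS n) (y : PS n) (N : ℕ) :
    vf a (y ^ (N + 1)) = ((N + 1 : ℕ) : PS n) * y ^ N * vf a y := by
  induction N with
  | zero => simp
  | succ N ih =>
    rw [pow_succ, vf_mul, ih]
    push_cast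
    ring

/-- Linear coefficient of a combination of the variables. -/
theorem coeff_comb (g : Fin n → PS n) (T : Finset (Fin n)) (j : Fin n) :
    coeff (Finsupp.single j 1) (∑ i ∈ T, g i * X i) = if j ∈ T then constantCoeff (g j) else 0 := by
  classical
  rw [coeff_single, map_sum, map_sum]
  have h : ∀ i, constantCoeff (pderiv ℂ j (g i * X i)) =
      if i = j then constantCoeff (g i) else 0 := by
    intro i
    rw [Derivation.leibniz, smul_eq_mul, smul_eq_mul, map_add, map_mul, map_mul, constantCoeff_X,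
      zero_mul, add_zero]
    by_cases hij : i = j
    · subst hij
      rw [pderiv_X_self, map_one, mul_one, if_pos rfl]
    · rw [pderiv_X_of_ne hij, map_zero, mul_zero, if_neg hij]
  rw [Finset.sum_congr rfl fun i _ => h i, Finset.sum_ite_eq']

theorem no_chain (hSP : S_SP) (I : Ideal (PS n)) (hdim : ringKrullDim (PS n ⧸ I) = 1)
    (q q' : Ideal (PS n)) (hq : q.IsPrime) (hq' : q'.IsPrime) (hIq : I ≤ q) (hlt : q < q') :
    q' = mI n := by
  by_contra hne
  have hImI : I ≤ mI n := hIq.trans (L7h56.RC.le_mI hSP q hq.ne_top)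
  have hlt' : q' < mI n := lt_of_le_of_ne (L7h56.RC.le_mI hSP q' hq'.ne_top) hne
  have hIq' : I ≤ q' := hIq.trans hlt.le
  have h1 : ringKrullDim (PS n ⧸ I) ≤ 1 := hdim.le
  rcases Order.krullDim_le_one_iff.1 h1 (L7h56.RC.pnt I q' hq' hIq') with h2 | h2
  · exact h2.not_lt (L7h56.RC.pnt_lt I q q' hq hIq hq' hIq' hlt)
  · exact h2.not_lt (L7h56.RC.pnt_lt I q' (mI n) hq' hIq' (L7h56.RC.mI_max hSP n).isPrime hImI hlt')

/-- The main case: the first of the two components has embedding dimension at least two. -/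
theorem wedge_aux (hSP : S_SP) (hDE : S_DE) (hWPR : S_WPR) (hPRI : S_PRI)
    (n : ℕ) (I : Ideal (PS n)) (hrad : I.IsRadical) (hdim : ringKrullDim (PS n ⧸ I) = 1)
    (hlin : ∀ f ∈ I, ∀ i, coeff (Finsupp.single i 1) f = 0) (T : Finset (Fin n))
    (i1 i2 j1 : Fin n) (hi1 : i1 ∈ T) (hi2 : i2 ∈ T) (hi12 : i1 ≠ i2) (hj1 : j1 ∉ T)
    (hxy : ∀ i ∈ T, ∀ j, j ∉ T → X i * X j ∈ I)
    (hrig : ∀ φ : I →ₗ[PS n] (PS n ⧸ I), ∃ D : Derivation ℂ (PS n) (PS n),
      ∀ f : I, φ f = Ideal.Quotient.mk I (D (f : PS n))) : False := by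
  classical
  obtain ⟨B, hIB, hBp, hBinc, hB0⟩ := hPRI n I hrad hdim
  have hIp : ∀ p ∈ B, I ≤ p := by
    intro p hp
    rw [hIB]
    exact Finset.inf_le hp
  have hmemI : ∀ f, (∀ p ∈ B, f ∈ p) → f ∈ I := by
    intro f hf
    rw [hIB, Submodule.mem_finsetInf]
    exact hf
  -- elements in all the other primes
  have hex : ∀ p : B, ∃ k : PS n, k ∉ (p : Ideal (PS n)) ∧ ∀ q ∈ B, q ≠ p → k ∈ q := by
    rintro ⟨p, hp⟩
    have hk : ∃ k, k ∈ (B.erase p).inf id ∧ k ∉ p := by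
      by_contra hcon
      push Not at hcon
      obtain ⟨q, hq, hqp⟩ := (Ideal.IsPrime.inf_le' (hBp p hp)).1 hcon
      have h1 := hBinc q (Finset.mem_of_mem_erase hq) p hp hqp
      exact (Finset.ne_of_mem_erase hq) h1.symm
    obtain ⟨k, hk1, hk2⟩ := hk
    exact ⟨k, hk2, fun q hq hne =>
      (Finset.inf_le (Finset.mem_erase.2 ⟨hne, hq⟩) : (B.erase p).inf id ≤ id q) hk1⟩
  choose k hk hkq using hex
  have hkI : ∀ (p : B), ∀ g ∈ (p : Ideal (PS n)), k p * g ∈ I := by
    intro p g hg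
    apply hmemI
    intro q hq
    by_cases hqp : q = p
    · rw [hqp]
      exact Ideal.mul_mem_left _ _ hg
    · exact Ideal.mul_mem_right _ _ (hkq p q hq hqp)
  -- the two kinds of primes
  have hT : ∀ p ∈ B, ∀ i ∈ T, X i ∉ p → ∀ j, j ∉ T → X j ∈ p := by
    intro p hp i hi hip j hj
    exact ((hBp p hp).mem_or_mem (hIp p hp (hxy i hi j hj))).resolve_left hip
  have hT' : ∀ p ∈ B, ∀ j, j ∉ T → X j ∉ p → ∀ i ∈ T, X i ∈ p := by
    intro p hp j hj hjp i hi
    exact ((hBp p hp).mem_or_mem (hIp p hp (hxy i hi j hj))).resolve_right hjp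
  have hkind : ∀ p ∈ B, (∃ i ∈ T, X i ∉ p) ∨ (∃ j, j ∉ T ∧ X j ∉ p) := by
    intro p hp
    obtain ⟨i0, hi0, -⟩ := hB0 p hp
    by_cases h : i0 ∈ T
    · exact Or.inl ⟨i0, h, hi0⟩
    · exact Or.inr ⟨i0, h, hi0⟩
  -- a prime of the second kind
  obtain ⟨p2, hp2, hp2j⟩ : ∃ p ∈ B, X j1 ∉ p := by
    by_contra hcon
    push Not at hcon
    have h1 := hlin _ (hmemI _ hcon) j1
    rw [coeff_single, pderiv_X_self, map_one] at h1
    exact one_ne_zero h1
  have hp2T : ∀ i ∈ T, X i ∈ p2 := hT' p2 hp2 j1 hj1 hp2j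
  -- u and v
  choose i0 hi0 hi0K using fun p : B => hB0 p p.2
  let u : PS n := ∑ p : B, if i0 p ∈ T then k p * X (i0 p) else 0
  let v : PS n := ∑ p : B, if i0 p ∈ T then 0 else k p * X (i0 p)
  have huv : u + v = ∑ p : B, k p * X (i0 p) := by
    rw [← Finset.sum_add_distrib]
    refine Finset.sum_congr rfl fun p _ => ?_
    split_ifs
    · rw [add_zero]
    · rw [zero_add]
  have hxp : ∀ p ∈ B, u + v ∉ p := by
    intro p hp hcon
    rw [huv, ← Finset.add_sum_erase _ _ (Finset.mem_univ (⟨p, hp⟩ : B))] at hcon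
    have h2 : ∑ q ∈ Finset.univ.erase (⟨p, hp⟩ : B), k q * X (i0 q) ∈ p := by
      refine Ideal.sum_mem _ fun q hq => Ideal.mul_mem_right _ _ (hkq q p hp fun he => ?_)
      exact (Finset.ne_of_mem_erase hq) (Subtype.ext he.symm)
    rcases (hBp p hp).mem_or_mem ((Ideal.add_mem_iff_left _ h2).1 hcon) with h3 | h3
    · exact hk ⟨p, hp⟩ h3
    · exact hi0 ⟨p, hp⟩ h3
  have huJ : ∀ j, j ∉ T → u * X j ∈ I := by
    intro j hj
    rw [Finset.sum_mul]
    refine Ideal.sum_mem _ fun p _ => ?_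
    split_ifs with h
    · rw [mul_assoc]
      exact Ideal.mul_mem_left _ _ (hxy _ h j hj)
    · rw [zero_mul]
      exact I.zero_mem
  have hvT : ∀ i ∈ T, v * X i ∈ I := by
    intro i hi
    rw [Finset.sum_mul]
    refine Ideal.sum_mem _ fun p _ => ?_
    split_ifs with h
    · rw [zero_mul]
      exact I.zero_mem
    · rw [mul_assoc, mul_comm (X (i0 p))]
      exact Ideal.mul_mem_left _ _ (hxy i hi _ h)
  have hu2 : u ∈ p2 := by
    refine Ideal.sum_mem _ fun p _ => ?_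
    split_ifs with h
    · exact Ideal.mul_mem_left _ _ (hp2T _ h)
    · exact Ideal.zero_mem _
  have hvp : ∀ p ∈ B, (∃ i ∈ T, X i ∉ p) → v ∈ p := by
    rintro p hp ⟨i, hi, hip⟩
    refine Ideal.sum_mem _ fun q _ => ?_
    split_ifs with h
    · exact Ideal.zero_mem _
    · exact Ideal.mul_mem_left _ _ (hT p hp i hi hip _ h)
  -- the parameter
  have hxn : Ideal.Quotient.mk I (u + v) ∈ nonZeroDivisors (PS n ⧸ I) := by
    rw [mem_nonZeroDivisors_iff_right]
    intro y hy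
    obtain ⟨b, rfl⟩ := Ideal.Quotient.mk_surjective y
    rw [← map_mul, Ideal.Quotient.eq_zero_iff_mem] at hy
    rw [Ideal.Quotient.eq_zero_iff_mem]
    apply hmemI
    intro p hp
    exact ((hBp p hp).mem_or_mem (hIp p hp hy)).resolve_right (hxp p hp)
  have huX : ∀ i, u * X i ∈ I ⊔ Ideal.span {u + v} := by
    intro i
    by_cases hi : i ∈ T
    · have h1 : u * X i = -(v * X i) + X i * (u + v) := by ring
      rw [h1]
      exact Ideal.add_mem _ (Ideal.mem_sup_left (I.neg_mem (hvT i hi)))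
        (Ideal.mem_sup_right (Ideal.mul_mem_left _ _ (Ideal.mem_span_singleton_self _)))
    · exact Ideal.mem_sup_left (huJ i hi)
  obtain ⟨a, haI, hab⟩ := lift_der hDE I (u + v) hxn hrig (Pi.single i1 u) (by
    intro f hf
    rw [Finset.sum_eq_single i1]
    · rw [Pi.single_eq_same]
      have h1 : pderiv ℂ i1 f ∈ mI n := by
        rw [mem_mI hSP, ← coeff_single]
        exact hlin f hf _
      obtain ⟨g, hg⟩ := Ideal.mem_span_range_iff_exists_fun.1 h1
      rw [← hg, Finset.mul_sum]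
      refine Ideal.sum_mem _ fun j _ => ?_
      have h2 : u * (g j * X j) = g j * (u * X j) := by ring
      rw [h2]
      exact Ideal.mul_mem_left _ _ (huX j)
    · intro i _ hi
      rw [Pi.single_eq_of_ne hi, zero_mul]
    · intro hi
      exact absurd (Finset.mem_univ _) hi)
  -- a = b + (u + v) g + ι
  have hdec : ∀ i, ∃ g ι : PS n, ι ∈ I ∧ a i = (Pi.single i1 u : Fin n → PS n) i +
      (u + v) * g + ι := by
    intro i
    obtain ⟨ι, hι, y, hy, hιy⟩ := Submodule.mem_sup.1 (hab i)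
    obtain ⟨g, hg⟩ := Ideal.mem_span_singleton'.1 hy
    refine ⟨g, ι, hι, ?_⟩
    rw [← hg] at hιy
    linear_combination -hιy
  choose g ι hι hag using hdec
  -- a preserves the members of B
  have hap : ∀ p ∈ B, ∀ f ∈ p, vf a f ∈ p := by
    intro p hp f hf
    have h1 : vf a (k ⟨p, hp⟩ * f) ∈ p := hIp p hp (haI _ (hkI ⟨p, hp⟩ f hf))
    rw [vf_mul] at h1
    have h2 := (Ideal.add_mem_iff_left _ (Ideal.mul_mem_right (vf a (k ⟨p, hp⟩)) _ hf)).1 h1
    exact ((hBp p hp).mem_or_mem h2).resolve_left (hk ⟨p, hp⟩)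
  -- the constant term of g i1
  have hg1 : constantCoeff (g i1) = 0 := by
    have h1 := hap p2 hp2 _ (hp2T i1 hi1)
    rw [vf_X, hag, Pi.single_eq_same, add_assoc, add_comm ((u + v) * g i1), ← add_assoc] at h1
    have h2 : u + ι i1 ∈ p2 := Ideal.add_mem _ hu2 (hIp p2 hp2 (hι i1))
    have h3 := (Ideal.add_mem_iff_right _ h2).1 h1
    have h4 := ((hBp p2 hp2).mem_or_mem h3).resolve_left (hxp p2 hp2)
    exact constantCoeff_of_mem (hBp p2 hp2).ne_top h4
  -- the derivation of the first component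
  let a' : Fin n → PS n := fun i => (Pi.single i1 1 : Fin n → PS n) i + g i
  let I1 : Ideal (PS n) := (B.filter fun p => ∃ i ∈ T, X i ∉ p).inf id
  have hI1 : ∀ f, f ∈ I1 ↔ ∀ p ∈ B, (∃ i ∈ T, X i ∉ p) → f ∈ p := by
    intro f
    rw [show I1 = (B.filter fun p => ∃ i ∈ T, X i ∉ p).inf id from rfl, Submodule.mem_finsetInf]
    constructor
    · intro h p hp hpi
      exact h p (Finset.mem_filter.2 ⟨hp, hpi⟩)
    · intro h p hp
      exact h p (Finset.mem_filter.1 hp).1 (Finset.mem_filter.1 hp).2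
  have hII1 : I ≤ I1 := fun f hf => (hI1 f).2 fun p hp _ => hIp p hp hf
  have hup : ∀ p ∈ B, (∃ i ∈ T, X i ∉ p) → u ∉ p := by
    intro p hp hpi hu
    exact hxp p hp (Ideal.add_mem _ hu (hvp p hp hpi))
  have ha'p : ∀ p ∈ B, (∃ i ∈ T, X i ∉ p) → ∀ f ∈ p, vf a' f ∈ p := by
    intro p hp hpi f hf
    have h1 : u * vf a' f = vf a f - ∑ i, (v * g i + ι i) * pderiv ℂ i f := by
      rw [vf, vf, Finset.mul_sum, ← Finset.sum_sub_distrib]
      refine Finset.sum_congr rfl fun i _ => ?_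
      have h2 : a i = u * a' i + (v * g i + ι i) := by
        rw [hag]
        change _ = u * ((Pi.single i1 1 : Fin n → PS n) i + g i) + _
        by_cases hi : i = i1
        · subst hi
          rw [Pi.single_eq_same, Pi.single_eq_same]
          ring
        · rw [Pi.single_eq_of_ne hi, Pi.single_eq_of_ne hi]
          ring
      rw [h2]
      ring
    have h3 : u * vf a' f ∈ p := by
      rw [h1]
      refine Ideal.sub_mem _ (hap p hp f hf) (Ideal.sum_mem _ fun i _ => Ideal.mul_mem_right _ _ ?_)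
      exact Ideal.add_mem _ (Ideal.mul_mem_right _ _ (hvp p hp hpi)) (hIp p hp (hι i))
    exact ((hBp p hp).mem_or_mem h3).resolve_left (hup p hp hpi)
  have ha'I : ∀ f ∈ I1, vf a' f ∈ I1 := by
    intro f hf
    rw [hI1]
    intro p hp hpi
    exact ha'p p hp hpi f ((hI1 f).1 hf p hp hpi)
  have hXI1 : ∀ j, j ∉ T → X j ∈ I1 := by
    intro j hj
    rw [hI1]
    rintro p hp ⟨i, hi, hip⟩
    exact hT p hp i hi hip j hj
  -- the derivative ideal
  let Jg : Set (PS n) := {h | ∃ f ∈ I1, ∃ l ∈ T, pderiv ℂ l f = h}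
  let J : Ideal (PS n) := I1 ⊔ Ideal.span Jg
  have hJg : ∀ f ∈ I1, ∀ l ∈ T, pderiv ℂ l f ∈ J := fun f hf l hl =>
    Ideal.mem_sup_right (Ideal.subset_span ⟨f, hf, l, hl, rfl⟩)
  -- a prime of the first kind
  obtain ⟨p1, hp1, hp1i⟩ : ∃ p ∈ B, X i1 ∉ p := by
    by_contra hcon
    push Not at hcon
    have h1 := hlin _ (hmemI _ hcon) i1
    rw [coeff_single, pderiv_X_self, map_one] at h1
    exact one_ne_zero h1
  -- proper
  have hlin1 : ∀ f ∈ I1, ∀ l ∈ T, constantCoeff (pderiv ℂ l f) = 0 := by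
    intro f hf l hl
    have h0 : f ∈ mI n := (mem_mI hSP f).2 (constantCoeff_of_mem (hBp p1 hp1).ne_top
      ((hI1 f).1 hf p1 hp1 ⟨i1, hi1, hp1i⟩))
    obtain ⟨c, hc⟩ := Ideal.mem_span_range_iff_exists_fun.1 h0
    have hsplit : f = ∑ i ∈ T, c i * X i + ∑ i ∈ Tᶜ, c i * X i := by
      rw [Finset.sum_add_sum_compl, hc]
    have h1 : ∑ i ∈ Tᶜ, c i * X i ∈ I1 :=
      Ideal.sum_mem _ fun i hi => Ideal.mul_mem_left _ _ (hXI1 i (Finset.mem_compl.1 hi))
    have h2 : ∑ i ∈ T, c i * X i ∈ I1 := by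
      have h3 : ∑ i ∈ T, c i * X i = f - ∑ i ∈ Tᶜ, c i * X i := by
        linear_combination -hsplit
      rw [h3]
      exact Ideal.sub_mem _ hf h1
    have h4 : ∑ i ∈ T, c i * X i ∈ I := by
      apply hmemI
      intro p hp
      by_cases hpi : ∃ i ∈ T, X i ∉ p
      · exact (hI1 _).1 h2 p hp hpi
      · push Not at hpi
        exact Ideal.sum_mem _ fun i hi => Ideal.mul_mem_left _ _ (hpi i hi)
    have h5 := hlin _ h4 l
    rw [coeff_comb, if_pos hl] at h5
    rw [← coeff_single, hsplit, map_add, coeff_comb, coeff_comb, if_pos hl, h5,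
      if_neg (fun h => Finset.mem_compl.1 h hl), add_zero]
  have hJ0 : ∀ f ∈ J, constantCoeff f = 0 := by
    have h1 : J ≤ RingHom.ker (constantCoeff : PS n →+* ℂ) := by
      refine sup_le ?_ ?_
      · intro f hf
        exact constantCoeff_of_mem (hBp p1 hp1).ne_top ((hI1 f).1 hf p1 hp1 ⟨i1, hi1, hp1i⟩)
      · rw [Ideal.span_le]
        rintro _ ⟨f, hf, l, hl, rfl⟩
        exact hlin1 f hf l hl
    intro f hf
    exact h1 hf
  -- stable under the derivation
  have hJs : ∀ f ∈ J, vf a' f ∈ J := by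
    intro f hf
    obtain ⟨f1, hf1, f2, hf2, rfl⟩ := Submodule.mem_sup.1 hf
    rw [vf_add]
    refine Ideal.add_mem _ (Ideal.mem_sup_left (ha'I f1 hf1)) ?_
    induction hf2 using Submodule.span_induction with
    | mem x hx =>
      obtain ⟨h, hh, l, hl, rfl⟩ := hx
      rw [vf_pderiv]
      refine Ideal.sub_mem _ (hJg _ (ha'I h hh) l hl) (Ideal.sum_mem _ fun m _ => ?_)
      by_cases hm : m ∈ T
      · exact Ideal.mul_mem_left _ _ (hJg h hh m hm)
      · refine Ideal.mul_mem_right _ _ (hJg (a' m) ?_ l hl)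
        have h1 := ha'I _ (hXI1 m hm)
        rwa [vf_X] at h1
    | zero =>
      have h1 : vf a' (0 : PS n) = 0 := by
        rw [vf]
        refine Finset.sum_eq_zero fun i _ => ?_
        rw [map_zero, mul_zero]
      rw [h1]
      exact J.zero_mem
    | add x y hx hy ihx ihy =>
      rw [vf_add]
      exact J.add_mem (ihx (Ideal.add_mem _ (Ideal.mem_sup_left hf1) (Ideal.mem_sup_right hx)))
        (ihy (Ideal.add_mem _ (Ideal.mem_sup_left hf1) (Ideal.mem_sup_right hy)))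
    | smul r x hx ih =>
      rw [smul_eq_mul, vf_mul]
      exact J.add_mem (Ideal.mul_mem_left _ _
        (ih (Ideal.add_mem _ (Ideal.mem_sup_left hf1) (Ideal.mem_sup_right hx))))
        (Ideal.mul_mem_right _ _ (Ideal.mem_sup_right hx))
  -- contains a power of X i1
  have hrad1 : (X i1 : PS n) ∈ J.radical := by
    rw [Ideal.radical_eq_sInf, Submodule.mem_sInf]
    rintro q ⟨hq, hqp⟩
    have h1 : (B.filter fun p => ∃ i ∈ T, X i ∉ p).inf id ≤ q := le_trans le_sup_left hq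
    obtain ⟨p, hpf, hpq⟩ := (Ideal.IsPrime.inf_le' hqp).1 h1
    obtain ⟨hp, i, hi, hip⟩ := Finset.mem_filter.1 hpf
    -- q is not p
    have hi0T : i0 ⟨p, hp⟩ ∈ T := by
      by_contra hcon
      exact hi0 ⟨p, hp⟩ (hT p hp i hi hip _ hcon)
    obtain ⟨l, hl, hli0⟩ : ∃ l ∈ T, l ≠ i0 ⟨p, hp⟩ := by
      by_cases h : i1 = i0 ⟨p, hp⟩
      · exact ⟨i2, hi2, fun h' => hi12 (h.trans h'.symm)⟩
      · exact ⟨i1, hi1, h⟩
    obtain ⟨G, hG, -, hGl⟩ := hWPR n p (hBp p hp) (i0 ⟨p, hp⟩) (hi0 ⟨p, hp⟩) (hi0K ⟨p, hp⟩) l hli0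
    have h2 : pderiv ℂ l (k ⟨p, hp⟩ * G) ∈ J := hJg _ (hII1 (hkI ⟨p, hp⟩ G hG)) l hl
    have h3 : pderiv ℂ l (k ⟨p, hp⟩ * G) ∉ p := by
      intro hcon
      rw [Derivation.leibniz, smul_eq_mul, smul_eq_mul] at hcon
      have h4 := (Ideal.add_mem_iff_left _ (Ideal.mul_mem_right (pderiv ℂ l (k ⟨p, hp⟩)) _ hG)).1
        hcon
      rcases (hBp p hp).mem_or_mem h4 with h5 | h5
      · exact hk ⟨p, hp⟩ h5
      · exact hGl h5
    have hlt : p < q := lt_of_le_of_ne hpq fun he => h3 (he.ge (hq h2))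
    have hqm := no_chain hSP I hdim p q (hBp p hp) hqp (hIp p hp) hlt
    rw [hqm]
    exact Ideal.subset_span ⟨i1, rfl⟩
  obtain ⟨N, hN⟩ := hrad1
  have hmin : ∃ N, (X i1 : PS n) ^ N ∈ J := ⟨N, hN⟩
  have hN1 := Nat.find_spec hmin
  have hN2 := fun m (hm : m < Nat.find hmin) => Nat.find_min hmin hm
  rcases hNN : Nat.find hmin with _ | M
  · rw [hNN, pow_zero] at hN1
    have := hJ0 _ hN1
    rw [map_one] at this
    exact one_ne_zero this
  · rw [hNN] at hN1
    apply hN2 M (by rw [hNN]; exact Nat.lt_succ_self M)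
    have h1 := hJs _ hN1
    rw [vf_pow, vf_X] at h1
    have h2 : a' i1 = 1 + g i1 := by
      change (Pi.single i1 1 : Fin n → PS n) i1 + g i1 = _
      rw [Pi.single_eq_same]
    have hunit : IsUnit (((M + 1 : ℕ) : PS n) * a' i1) := by
      rw [MvPowerSeries.isUnit_iff_constantCoeff, map_mul, map_natCast, h2, map_add, map_one, hg1,
        add_zero, mul_one]
      exact isUnit_iff_ne_zero.2 (by exact_mod_cast Nat.succ_ne_zero M)
    have h3 : ((M + 1 : ℕ) : PS n) * X i1 ^ M * a' i1 =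
        (((M + 1 : ℕ) : PS n) * a' i1) * X i1 ^ M := by ring
    rw [h3] at h1
    exact (Ideal.unit_mul_mem_iff_mem _ hunit).1 h1

/-- Transversal unions of curve singularities are not rigid. -/
theorem wedge (hSP : S_SP) (hDE : S_DE) (hWPR : S_WPR) (hPRI : S_PRI)
    (n : ℕ) (hn : 3 ≤ n) (I : Ideal (PS n)) (hrad : I.IsRadical)
    (hdim : ringKrullDim (PS n ⧸ I) = 1)
    (hlin : ∀ f ∈ I, ∀ i, coeff (Finsupp.single i 1) f = 0) (T : Finset (Fin n))
    (hT : T.Nonempty) (hT' : Tᶜ.Nonempty) (hxy : ∀ i ∈ T, ∀ j ∈ Tᶜ, X i * X j ∈ I) :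
    ¬ ∀ φ : I →ₗ[PS n] (PS n ⧸ I), ∃ D : Derivation ℂ (PS n) (PS n),
      ∀ f : I, φ f = Ideal.Quotient.mk I (D (f : PS n)) := by
  classical
  intro hrig
  obtain ⟨i1, hi1⟩ := hT
  obtain ⟨j1, hj1⟩ := hT'
  have hcard : T.card + Tᶜ.card = n := by
    rw [Finset.card_add_card_compl, Fintype.card_fin]
  by_cases h : 1 < T.card
  · obtain ⟨i2, hi2, hne⟩ := Finset.exists_mem_ne h i1
    exact wedge_aux hSP hDE hWPR hPRI n I hrad hdim hlin T i1 i2 j1 hi1 hi2 hne.symm
      (Finset.mem_compl.1 hj1) (fun i hi j hj => hxy i hi j (Finset.mem_compl.2 hj)) hrig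
  · have h' : 1 < Tᶜ.card := by omega
    obtain ⟨j2, hj2, hne⟩ := Finset.exists_mem_ne h' j1
    refine wedge_aux hSP hDE hWPR hPRI n I hrad hdim hlin Tᶜ j1 j2 i1 hj1 hj2 hne.symm
      (fun hc => Finset.mem_compl.1 hc hi1) (fun j hj i hi => ?_) hrig
    rw [mul_comm]
    refine hxy i ?_ j hj
    by_contra hcon
    exact hi (Finset.mem_compl.2 hcon)

end Pool.Agent.L7h80.RC
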